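import Pool.Agent.TH996.LL.Graph

/-!
The lamplighter graph is connected.
-/

namespace Pool.Agent.TH996.LL

lemma lgConn_out (u : LV) (c : ZMod 2) : LG.Reachable u (u.out c) :=
  SimpleGraph.Adj.reachable (show LG.Adj u (u.out c) from Or.inl ⟨c, rfl⟩)

lemma lgConn_out_zero (n : ℤ) (f : ℤ →₀ ZMod 2) : (⟨n, f⟩ : LV).out 0 = ⟨n + 1, f⟩ := by
  unfold LV.out
  ext1
  · rfl
  · simp

lemma lgConn_step (n : ℤ) (f : ℤ →₀ ZMod 2) :
    LG.Reachable (⟨n, f⟩ : LV) (⟨n + 1, f⟩ : LV) := by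
  have h := lgConn_out (⟨n, f⟩ : LV) 0
  rwa [lgConn_out_zero] at h

lemma lgConn_nat (n : ℤ) (f : ℤ →₀ ZMod 2) (k : ℕ) :
    LG.Reachable (⟨n, f⟩ : LV) (⟨n + k, f⟩ : LV) := by
  induction k with
  | zero => simp
  | succ k ih =>
    have h := ih.trans (lgConn_step (n + k) f)
    have e : n + ((k + 1 : ℕ) : ℤ) = n + k + 1 := by push_cast; ring
    rw [e]
    exact h

lemma lgConn_move (m n : ℤ) (f : ℤ →₀ ZMod 2) :
    LG.Reachable (⟨m, f⟩ : LV) (⟨n, f⟩ : LV) := by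
  rcases le_total m n with h | h
  · have h1 := lgConn_nat m f (n - m).toNat
    have e : m + ((n - m).toNat : ℤ) = n := by omega
    rwa [e] at h1
  · have h1 := lgConn_nat n f (m - n).toNat
    have e : n + ((m - n).toNat : ℤ) = m := by omega
    rw [e] at h1
    exact h1.symm

lemma lgConn_toggle (n : ℤ) (f : ℤ →₀ ZMod 2) (c : ZMod 2) :
    LG.Reachable (⟨n, f⟩ : LV) (⟨n, f + Finsupp.single n c⟩ : LV) := by
  have h1 := lgConn_out (⟨n, f⟩ : LV) c
  have h2 := lgConn_step n (f + Finsupp.single n c)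
  exact h1.trans h2.symm

lemma lgConn_add (f : ℤ →₀ ZMod 2) :
    ∀ (g : ℤ →₀ ZMod 2) (m n : ℤ), LG.Reachable (⟨m, g⟩ : LV) (⟨n, g + f⟩ : LV) := by
  induction f using Finsupp.induction_linear with
  | zero =>
    intro g m n
    rw [add_zero]
    exact lgConn_move m n g
  | add f1 f2 h1 h2 =>
    intro g m n
    rw [← add_assoc]
    exact (h1 g m m).trans (h2 (g + f1) m n)
  | single j c =>
    intro g m n
    exact ((lgConn_move m j g).trans (lgConn_toggle j g c)).trans (lgConn_move j n _)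

theorem lg_connected : LG.Connected := by
  haveI : Nonempty LV := ⟨⟨0, 0⟩⟩
  refine SimpleGraph.Connected.mk ?_
  rintro ⟨m, g⟩ ⟨n, f⟩
  have h := lgConn_add (f - g) g m n
  rwa [add_sub_cancel] at h

end Pool.Agent.TH996.LL
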