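import Pool.Agent.TH996.LL.Graph

/-!
The lamplighter triple: `LG`, `LK`, `LΓ` (helper543).
-/

namespace Pool.Agent.TH996.LL

open Pool.Agent.TH996.Parking

private lemma zm2 (c : ZMod 2) : c = 0 ∨ c = 1 := by
  revert c
  decide

private lemma out_inj (u : LV) {c d : ZMod 2} (h : u.out c = u.out d) : c = d := by
  have h1 := congrArg LV.lamp h
  have h2 : Finsupp.single u.pos c = Finsupp.single u.pos d := add_left_cancel h1
  exact Finsupp.single_injective _ h2

private lemma adj_out (u : LV) (c : ZMod 2) : LG.Adj u (u.out c) := Or.inl ⟨c, rfl⟩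

private lemma lk_out (u : LV) (c : ZMod 2) : LK u (u.out c) = 1 / 2 := by
  unfold LK
  rw [if_pos ⟨c, rfl⟩]

theorem lk_kernel : IsKernel LG LK where
  nonneg u v := by
    unfold LK
    split_ifs <;> norm_num
  supp u v h := by
    unfold LK
    rw [if_neg]
    rintro ⟨c, rfl⟩
    exact h (adj_out u c)
  sum_one u := by
    have hne : u.out 0 ≠ u.out 1 := fun h => by
      have := out_inj u h
      exact absurd this (by decide)
    have hsub : ({u.out 0, u.out 1} : Finset LV) ⊆ LG.neighborFinset u := by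
      intro v hv
      rw [Finset.mem_insert, Finset.mem_singleton] at hv
      rw [SimpleGraph.mem_neighborFinset]
      rcases hv with rfl | rfl
      · exact adj_out u 0
      · exact adj_out u 1
    rw [← Finset.sum_subset hsub, Finset.sum_pair hne, lk_out, lk_out]
    · norm_num
    · intro v _ hv
      unfold LK
      rw [if_neg]
      rintro ⟨c, rfl⟩
      rcases zm2 c with rfl | rfl <;> simp at hv

private lemma act_out (m : ℤ) (g : ℤ →₀ ZMod 2) (u : LV) (c : ZMod 2) :
    LV.act m g (u.out c) = (LV.act m g u).out c := by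
  unfold LV.act LV.out
  ext1
  · simp only
    ring
  · ext j
    simp only [Finsupp.add_apply, Finsupp.equivMapDomain_apply, Equiv.addRight_symm,
      Equiv.coe_addRight, Finsupp.single_apply]
    by_cases e : u.pos + m = j
    · rw [if_pos e, if_pos (show u.pos = j + -m by omega)]
      ring
    · rw [if_neg e, if_neg (show ¬ u.pos = j + -m by omega)]
      ring

private lemma mem_out {φ : Equiv.Perm LV} (hφ : φ ∈ LΓ) (u v : LV) (c : ZMod 2) :
    φ v = (φ u).out c ↔ v = u.out c := by
  obtain ⟨m, g, h⟩ := hφ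
  have h1 : (φ u).out c = φ (u.out c) := by rw [h, h, act_out]
  rw [h1]
  exact φ.injective.eq_iff

theorem l_aut : IsAut LG LK LΓ where
  adj φ hφ u v := by
    show (∃ c, φ v = (φ u).out c) ∨ (∃ c, φ u = (φ v).out c) ↔
      (∃ c, v = u.out c) ∨ (∃ c, u = v.out c)
    simp only [mem_out hφ]
  ker φ hφ u v := by
    unfold LK
    simp only [mem_out hφ]

private lemma cancel1 (m : ℤ) (g : ℤ →₀ ZMod 2) : Finsupp.equivMapDomain (Equiv.addRight m)
    (-Finsupp.equivMapDomain (Equiv.addRight (-m)) g) + g = 0 := by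
  ext j
  simp [Finsupp.equivMapDomain_apply, CharTwo.add_self_eq_zero]

/-- the action as a permutation -/
private noncomputable def actE (m : ℤ) (g : ℤ →₀ ZMod 2) : Equiv.Perm LV where
  toFun := LV.act m g
  invFun := LV.act (-m) (-Finsupp.equivMapDomain (Equiv.addRight (-m)) g)
  left_inv u := by
    rw [act_act, add_neg_cancel, add_neg_cancel, act_zero]
  right_inv u := by
    rw [act_act, neg_add_cancel, cancel1, act_zero]

private lemma actE_mem (m : ℤ) (g : ℤ →₀ ZMod 2) : actE m g ∈ LΓ := ⟨m, g, fun _ => rfl⟩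

theorem l_trans : IsTransitive LΓ := by
  intro u v
  refine ⟨actE (v.pos - u.pos)
    (v.lamp - Finsupp.equivMapDomain (Equiv.addRight (v.pos - u.pos)) u.lamp), actE_mem _ _, ?_⟩
  show LV.act _ _ u = v
  unfold LV.act
  ext1
  · simp only
    ring
  · simp only
    abel

private lemma stab {φ : Equiv.Perm LV} (hφ : φ ∈ LΓ) {u : LV} (hu : φ u = u) (v : LV) :
    φ v = v := by
  obtain ⟨m, g, h⟩ := hφ
  rw [h] at hu
  have h1 : u.pos + m = u.pos := congrArg LV.pos hu
  have hm : m = 0 := by omega
  subst hm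
  have h2 : Finsupp.equivMapDomain (Equiv.addRight (0 : ℤ)) u.lamp + g = u.lamp :=
    congrArg LV.lamp hu
  have h3 : Finsupp.equivMapDomain (Equiv.addRight (0 : ℤ)) u.lamp = u.lamp := by
    ext j
    simp [Finsupp.equivMapDomain_apply]
    rfl
  rw [h3] at h2
  have hg : g = 0 := by simpa using h2
  rw [h, hg, act_zero]

private lemma stabOrbit_eq (u v : LV) : stabOrbit LΓ u v = {v} := by
  ext w
  constructor
  · rintro ⟨φ, hφ, h1, rfl⟩
    exact stab hφ h1 v
  · rintro rfl
    exact ⟨1, LΓ.one_mem, rfl, rfl⟩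

theorem l_unimod : IsUnimodular LΓ := by
  intro u v
  rw [stabOrbit_eq, stabOrbit_eq]
  exact ⟨Set.finite_singleton _, by rw [Set.ncard_singleton, Set.ncard_singleton]⟩

private lemma act_shift (u : LV) (h : u.lamp = 0) :
    LV.act (-1) 0 u = ⟨u.pos - 1, 0⟩ := by
  unfold LV.act
  ext1
  · simp only
    ring
  · simp only
    rw [h, add_zero]
    ext j
    simp

private lemma pow_act (n : ℕ) : ((actE (-1) 0) ^ n) (⟨0, 0⟩ : LV) = ⟨-(n : ℤ), 0⟩ := by
  induction n with
  | zero => simp
  | succ n ih =>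
    rw [pow_succ', Equiv.Perm.mul_apply, ih]
    show LV.act (-1) 0 _ = _
    rw [act_shift _ rfl]
    ext1
    · show -(n : ℤ) - 1 = -((n + 1 : ℕ) : ℤ)
      push_cast
      ring
    · rfl

theorem l_inf : IsInfinitelyAccessible LG LK LΓ := by
  refine ⟨actE (-1) 0, actE_mem _ _, ⟨0, 0⟩, ?_, ?_⟩
  · refine Set.infinite_range_of_injective fun n n' h => ?_
    simp only [pow_act] at h
    have := congrArg LV.pos h
    simp only at this
    omega
  · have h1 : (actE (-1) 0) (⟨0, 0⟩ : LV) = ⟨-1, 0⟩ := by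
      have := pow_act 1
      simpa using this
    have h2 : (⟨0, 0⟩ : LV) = (⟨-1, 0⟩ : LV).out 0 := by
      unfold LV.out
      ext1
      · rfl
      · simp
    rw [h1]
    refine Relation.ReflTransGen.single ⟨?_, ?_⟩
    · rw [h2]
      exact adj_out _ _
    · have h3 : LK (⟨-1, 0⟩ : LV) (⟨0, 0⟩ : LV) = 1 / 2 := by
        conv_lhs => rw [h2]
        exact lk_out _ _
      rw [h3]
      norm_num

end Pool.Agent.TH996.LL
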