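import Pool.Agent.TH996.ParkDefs

/-!
The lamplighter graph with its directed kernel: definitions.
-/

namespace Pool.Agent.TH996.LL

open Pool.Agent.TH996.Parking

/-- A vertex: the position of the lamplighter and the states (in `ZMod 2`) of the lamps, of which
all but finitely many are off. -/
@[ext] structure LV where
  /-- the position of the lamplighter -/
  pos : ℤ
  /-- the lamps -/
  lamp : ℤ →₀ ZMod 2

noncomputable instance : DecidableEq LV := Classical.decEq _
instance : MeasurableSpace LV := ⊤
instance : DiscreteMeasurableSpace LV := ⟨fun _ => trivial⟩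

/-- Add `c` to the state of the lamp at the present position, then step to the right. -/
noncomputable def LV.out (u : LV) (c : ZMod 2) : LV :=
  ⟨u.pos + 1, u.lamp + Finsupp.single u.pos c⟩

/-- `u` and `v` are adjacent when one arises from the other by a step to the right. -/
def LG : SimpleGraph LV where
  Adj u v := (∃ c, v = u.out c) ∨ (∃ c, u = v.out c)
  symm := ⟨fun _ _ h => h.symm⟩
  loopless := ⟨fun u h => by
    rcases h with ⟨c, h⟩ | ⟨c, h⟩ <;>
    · have := congrArg LV.pos h
      simp [LV.out] at this⟩

open Classical in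
/-- The kernel: from `u` the walk goes to each of the two vertices `u.out c` with probability one
half. -/
noncomputable def LK (u v : LV) : ℝ := if ∃ c, v = u.out c then 1 / 2 else 0

/-- Translate by `m` and add `g` to the lamps. -/
noncomputable def LV.act (m : ℤ) (g : ℤ →₀ ZMod 2) (u : LV) : LV :=
  ⟨u.pos + m, Finsupp.equivMapDomain (Equiv.addRight m) u.lamp + g⟩

lemma act_act (m m' : ℤ) (g g' : ℤ →₀ ZMod 2) (u : LV) :
    LV.act m' g' (LV.act m g u) =
      LV.act (m + m') (Finsupp.equivMapDomain (Equiv.addRight m') g + g') u := by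
  unfold LV.act
  ext1
  · simp [add_assoc]
  · ext j
    simp only [Finsupp.add_apply, Finsupp.equivMapDomain_apply, Equiv.addRight_symm,
      Equiv.coe_addRight]
    rw [show j + -(m + m') = j + -m' + -m by ring]
    ring

lemma act_zero (u : LV) : LV.act 0 0 u = u := by
  unfold LV.act
  ext1
  · simp
  · ext j
    simp [Finsupp.equivMapDomain_apply]
    rfl

/-- The group of all the maps `LV.act m g`. -/
def LΓ : Subgroup (Equiv.Perm LV) where
  carrier := {φ | ∃ m g, ∀ u, φ u = LV.act m g u}
  mul_mem' := by
    rintro φ ψ ⟨m, g, h⟩ ⟨m', g', h'⟩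
    exact ⟨_, _, fun u => by rw [Equiv.Perm.mul_apply, h, h', act_act]⟩
  one_mem' := ⟨0, 0, fun u => by rw [act_zero]; rfl⟩
  inv_mem' := by
    rintro φ ⟨m, g, h⟩
    refine ⟨-m, -Finsupp.equivMapDomain (Equiv.addRight (-m)) g, fun u => ?_⟩
    rw [Equiv.Perm.inv_eq_iff_eq, h, act_act]
    have e : Finsupp.equivMapDomain (Equiv.addRight m)
        (-Finsupp.equivMapDomain (Equiv.addRight (-m)) g) + g = 0 := by
      ext j
      simp [Finsupp.equivMapDomain_apply, CharTwo.add_self_eq_zero]
    rw [neg_add_cancel, e, act_zero]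

lemma finite_nb (u : LV) : (LG.neighborSet u).Finite := by
  have : LG.neighborSet u ⊆ Set.range (fun c : ZMod 2 => u.out c) ∪
      Set.range (fun c : ZMod 2 => (⟨u.pos - 1, u.lamp + Finsupp.single (u.pos - 1) c⟩ : LV)) := by
    rintro v (⟨c, h⟩ | ⟨c, h⟩)
    · exact Or.inl ⟨c, h.symm⟩
    · refine Or.inr ⟨-c, ?_⟩
      rw [h]
      unfold LV.out
      ext1
      · simp
      · simp [add_assoc, ← Finsupp.single_add, CharTwo.add_self_eq_zero]
  exact ((Set.finite_range _).union (Set.finite_range _)).subset this

noncomputable instance : LG.LocallyFinite := fun u => (finite_nb u).fintype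

end Pool.Agent.TH996.LL
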