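import Pool.Agent.TH996.LL.Defs
import Pool.Agent.TH996.LL.Graph

/-!
The binary structure of the lamplighter graph.
-/

namespace Pool.Agent.TH996.LL

open Pool.Agent.TH996.Park

/-- the vertices from which one can step to `x` -/
noncomputable def lbinInn (x : LV) (c : Bool) : LV :=
  ⟨x.pos - 1, x.lamp + Finsupp.single (x.pos - 1) (if c then 1 else 0)⟩

theorem lbin_out (x : LV) (c : Bool) : x = (lbinInn x c).out (if c then 1 else 0) := by
  unfold LV.out lbinInn
  ext1
  · simp
  · simp only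
    rw [add_assoc, ← Finsupp.single_add, CharTwo.add_self_eq_zero, Finsupp.single_zero, add_zero]

theorem lbin_zmod (c : ZMod 2) : ∃ b : Bool, c = if b then 1 else 0 := by
  fin_cases c
  · exact ⟨false, rfl⟩
  · exact ⟨true, rfl⟩

theorem lbin_eq (x y : LV) (c : ZMod 2) (h : x = y.out c) : ∃ b : Bool, y = lbinInn x b := by
  obtain ⟨b, hb⟩ := lbin_zmod c
  refine ⟨b, ?_⟩
  rw [h]
  unfold LV.out lbinInn
  ext1
  · simp
  · simp only
    rw [← hb, add_sub_cancel_right, add_assoc, ← Finsupp.single_add, CharTwo.add_self_eq_zero,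
      Finsupp.single_zero, add_zero]

theorem lbin_lamp (x : LV) (c : Bool) (j : ℤ) (h : j ≠ x.pos - 1) :
    (lbinInn x c).lamp j = x.lamp j := by
  unfold lbinInn
  simp only [Finsupp.add_apply]
  rw [Finsupp.single_eq_of_ne h, add_zero]

theorem lbin_lamp' (x : LV) (c : Bool) :
    (lbinInn x c).lamp (x.pos - 1) = x.lamp (x.pos - 1) + if c then 1 else 0 := by
  unfold lbinInn
  simp only [Finsupp.add_apply, Finsupp.single_eq_same]

/-- the backward cone -/
def lbinCone (x : LV) : Set LV :=
  {z | z.pos ≤ x.pos ∧ ∀ j, (j < z.pos ∨ x.pos ≤ j) → z.lamp j = x.lamp j}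

theorem lbin_ne {a : ZMod 2} (h : a + (if false = true then 1 else 0) =
    a + (if true = true then 1 else 0)) : False := by
  have h2 := add_left_cancel h
  simp at h2

noncomputable def lbin (S : Tri LV) (hK : S.K = LK) (hn : ∀ x, S.nb x = LG.neighborFinset x) :
    Bin S where
  inn := lbinInn
  ne x h := by
    have h2 := lbin_lamp' x false
    rw [h, lbin_lamp' x true] at h2
    exact lbin_ne h2.symm
  mem x c := by
    rw [hn, SimpleGraph.mem_neighborFinset]
    exact Or.inr ⟨_, lbin_out x c⟩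
  ker x c := by
    rw [hK]
    unfold LK
    rw [if_pos ⟨_, lbin_out x c⟩]
  supp x y h := by
    rw [hK] at h
    unfold LK at h
    by_cases h2 : ∃ c, x = y.out c
    · obtain ⟨c, hc⟩ := h2
      exact lbin_eq x y c hc
    · rw [if_neg h2] at h
      exact absurd rfl h
  cone := lbinCone
  self_mem x := ⟨le_rfl, fun _ _ => rfl⟩
  cone_inn x c := by
    rintro z ⟨h1, h2⟩
    have h3 : (lbinInn x c).pos = x.pos - 1 := rfl
    rw [h3] at h1 h2
    refine ⟨by omega, fun j hj => ?_⟩
    rw [h2 j (by omega), lbin_lamp x c j (by omega)]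
  not_mem x c := by
    rintro ⟨h1, -⟩
    have h3 : (lbinInn x c).pos = x.pos - 1 := rfl
    rw [h3] at h1
    omega
  disj x := by
    rw [Set.disjoint_left]
    rintro z ⟨-, h1⟩ ⟨-, h2⟩
    have h3 : ∀ c, (lbinInn x c).pos = x.pos - 1 := fun _ => rfl
    have h4 := h1 (x.pos - 1) (Or.inr (h3 _).le)
    have h5 := h2 (x.pos - 1) (Or.inr (h3 _).le)
    rw [h4, lbin_lamp', lbin_lamp'] at h5
    exact lbin_ne h5

end Pool.Agent.TH996.LL
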