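import Mathlib

/-!
# LL-H: limits
-/

set_option autoImplicit false

open Filter Topology

namespace Pool.Agent.TH996.LL

private lemma limAux (γ C : ℝ) (hγ : 0 < γ) :
    Tendsto (fun q : ℝ => (2 * (-Real.log q) + C) * q ^ γ) (𝓝[>] 0) (𝓝 0) := by
  have h1 : Tendsto (fun q : ℝ => Real.log q * q ^ γ) (𝓝[>] 0) (𝓝 0) :=
    tendsto_log_mul_rpow_nhdsGT_zero hγ
  have h2 : Tendsto (fun q : ℝ => q ^ γ) (𝓝[>] 0) (𝓝 0) := by
    have h3 : Tendsto (fun q : ℝ => q ^ γ) (𝓝 0) (𝓝 ((0 : ℝ) ^ γ)) :=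
      (Real.continuousAt_rpow_const 0 γ (Or.inr hγ.le)).tendsto
    rw [Real.zero_rpow hγ.ne'] at h3
    exact h3.mono_left nhdsWithin_le_nhds
  have h4 := (h1.const_mul (-2)).add (h2.const_mul C)
  rw [mul_zero, mul_zero, add_zero] at h4
  refine h4.congr fun q => ?_
  ring

theorem limits (v : ℝ → ℝ) (C : ℝ) (h0 : ∀ p, 0 ≤ v p)
    (h : ∀ p, 0 ≤ p → p < 1 / 2 → v p ≤ 2 * Real.log ((1 - p) / (1 - 2 * p)) + C) :
    (∀ γ : ℝ, 0 < γ → Tendsto (fun p : ℝ => v p * (1 / 2 - p) ^ γ) (𝓝[<] (1 / 2)) (𝓝 0)) ∧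
    ¬ ∃ γ c : ℝ, 0 < γ ∧ 0 < c ∧ Tendsto (fun p : ℝ => v p * (1 / 2 - p) ^ γ) (𝓝[<] (1 / 2)) (𝓝 c) := by
  have main : ∀ γ : ℝ, 0 < γ →
      Tendsto (fun p : ℝ => v p * (1 / 2 - p) ^ γ) (𝓝[<] (1 / 2)) (𝓝 0) := by
    intro γ hγ
    have hq : Tendsto (fun p : ℝ => 1 / 2 - p) (𝓝[<] (1 / 2)) (𝓝[>] 0) := by
      rw [tendsto_nhdsWithin_iff]
      constructor
      · have h1 : Tendsto (fun p : ℝ => 1 / 2 - p) (𝓝 (1 / 2)) (𝓝 (1 / 2 - 1 / 2)) :=
          (continuous_const.sub continuous_id).tendsto _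
        rw [sub_self] at h1
        exact h1.mono_left nhdsWithin_le_nhds
      · filter_upwards [self_mem_nhdsWithin] with p hp
        rw [Set.mem_Iio] at hp
        rw [Set.mem_Ioi]
        linarith
    have hlim := (limAux γ C hγ).comp hq
    have hpos : ∀ᶠ p : ℝ in 𝓝[<] (1 / 2), 0 < p :=
      nhdsWithin_le_nhds (lt_mem_nhds (by norm_num))
    refine squeeze_zero' (g := (fun q : ℝ => (2 * (-Real.log q) + C) * q ^ γ) ∘
      (fun p : ℝ => 1 / 2 - p)) ?_ ?_ hlim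
    · filter_upwards [self_mem_nhdsWithin] with p hp
      rw [Set.mem_Iio] at hp
      exact mul_nonneg (h0 p) (Real.rpow_nonneg (by linarith) _)
    · filter_upwards [self_mem_nhdsWithin, hpos] with p hp hp0
      rw [Set.mem_Iio] at hp
      simp only [Function.comp_apply]
      refine mul_le_mul_of_nonneg_right ?_ (Real.rpow_nonneg (by linarith) _)
      refine (h p hp0.le hp).trans ?_
      have hq0 : 0 < 1 / 2 - p := by linarith
      have h1 : (1 - p) / (1 - 2 * p) ≤ (1 / 2 - p)⁻¹ := by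
        rw [div_le_iff₀ (by linarith), show (1 - 2 * p : ℝ) = 2 * (1 / 2 - p) by ring]
        rw [mul_comm (2 : ℝ), ← mul_assoc, inv_mul_cancel₀ hq0.ne']
        linarith
      have h2 : Real.log ((1 - p) / (1 - 2 * p)) ≤ Real.log ((1 / 2 - p)⁻¹) :=
        Real.log_le_log (div_pos (by linarith) (by linarith)) h1
      rw [Real.log_inv] at h2
      linarith
  refine ⟨main, ?_⟩
  rintro ⟨γ, c, hγ, hc, hlim⟩
  exact hc.ne (tendsto_nhds_unique (main γ hγ) hlim)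

end Pool.Agent.TH996.LL
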