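import Mathlib
open Filter Topology
namespace Pool.Agent.TH996.LL

private theorem pt (v L : ℝ) (h0 : 0 ≤ v)
    (hup : ∀ k : ℕ, v ≤ L + k + 2 + (1 / 2) ^ (k + 1) * (v ^ 2 + 3 * v + 1))
    (hlow : ∀ k : ℕ, v ≤ 2 ^ k → L ≤ v + k + 1 + (1 / 2) ^ (k + 1) * v ^ 2) :
    |v - L| ≤ 4 * Real.log (v + 2) + 8 := by
  obtain ⟨n, hn1, hn2⟩ := exists_nat_pow_near (x := v + 2) (y := 2) (by linarith) (by norm_num)
  have hk : (v + 2) ^ 2 ≤ (2 : ℝ) ^ (2 * (n + 1)) := by
    rw [mul_comm 2 (n + 1), pow_mul]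
    exact pow_le_pow_left₀ (by linarith) hn2.le 2
  have hlog : (n : ℝ) * Real.log 2 ≤ Real.log (v + 2) := by
    rw [← Real.log_pow]
    exact Real.log_le_log (by positivity) hn1
  have hl2 : (0.6931471803 : ℝ) < Real.log 2 := Real.log_two_gt_d9
  have hn : 2 * (n : ℝ) ≤ 3 * Real.log (v + 2) := by
    have : (n : ℝ) * 0.6931471803 ≤ (n : ℝ) * Real.log 2 :=
      mul_le_mul_of_nonneg_left hl2.le (by positivity)
    have h3 : 0 ≤ (n : ℝ) := by positivity
    nlinarith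
  have hlog0 : 0 ≤ Real.log (v + 2) := Real.log_nonneg (by linarith)
  have hpos : (0 : ℝ) < 2 ^ (2 * (n + 1)) := by positivity
  have hs : ∀ x : ℝ, x ≤ (v + 2) ^ 2 → (1 / 2 : ℝ) ^ (2 * (n + 1) + 1) * x ≤ 1 / 2 := by
    intro x hx
    have e : (1 / 2 : ℝ) ^ (2 * (n + 1) + 1) = 1 / 2 * (1 / 2 ^ (2 * (n + 1))) := by
      rw [pow_succ, one_div_pow]
      ring
    rw [e, mul_assoc]
    have h1 : 1 / (2 : ℝ) ^ (2 * (n + 1)) * x ≤ 1 := by
      rw [one_div_mul_eq_div, div_le_one hpos]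
      exact hx.trans hk
    linarith
  have hv : v ≤ (2 : ℝ) ^ (2 * (n + 1)) := by
    refine le_trans ?_ hk
    nlinarith
  have h1 := hup (2 * (n + 1))
  have h2 := hlow (2 * (n + 1)) hv
  have h3 := hs (v ^ 2 + 3 * v + 1) (by nlinarith)
  have h4 := hs (v ^ 2) (by nlinarith)
  push_cast at h1 h2
  rw [abs_le]
  constructor <;> linarith

private theorem est (v W : ℝ) (h0 : 0 ≤ v) (hW : 27 ≤ W)
    (h : |v - W| ≤ 4 * Real.log (v + 2) + 10) : |v / W - 1| ≤ 26 / √W := by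
  have hW0 : 0 < W := by linarith
  have hs0 : 0 < √W := Real.sqrt_pos.2 hW0
  have hs2 : √W * √W = W := Real.mul_self_sqrt hW0.le
  have h16 : Real.log (v + 2) ≤ (v + 2) / 16 + 2 := by
    have h1 : Real.log ((v + 2) / 16) ≤ (v + 2) / 16 - 1 :=
      Real.log_le_sub_one_of_pos (by positivity)
    rw [Real.log_div (by positivity) (by norm_num)] at h1
    have h2 : Real.log 16 = 4 * Real.log 2 := by
      rw [show (16 : ℝ) = 2 ^ 4 by norm_num, Real.log_pow]
      norm_num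
    have h3 := Real.log_two_lt_d9
    linarith
  have hv : v ≤ 2 * W + 25 := by
    have := (abs_le.1 h).2
    linarith
  have hlog : Real.log (v + 2) ≤ 4 * √W := by
    have h1 : v + 2 ≤ (2 * √W) ^ 2 := by
      have : (2 * √W) ^ 2 = 4 * W := by
        rw [mul_pow, sq (√W), hs2]
        norm_num
      rw [this]
      linarith
    have h2 : Real.log (v + 2) ≤ Real.log ((2 * √W) ^ 2) :=
      Real.log_le_log (by positivity) h1
    rw [Real.log_pow] at h2
    have h3 : Real.log (2 * √W) ≤ 2 * √W - 1 := Real.log_le_sub_one_of_pos (by positivity)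
    push_cast at h2
    linarith
  have hs1 : 1 ≤ √W := by
    rw [Real.one_le_sqrt]
    linarith
  have h5 : |v - W| ≤ 26 * √W := by linarith
  have e : v / W - 1 = (v - W) / W := by
    field_simp
  rw [e, abs_div, abs_of_pos hW0, div_le_div_iff₀ hW0 hs0]
  calc |v - W| * √W ≤ 26 * √W * √W := mul_le_mul_of_nonneg_right h5 hs0.le
    _ = 26 * W := by rw [mul_assoc, hs2]

private theorem Wtop : Tendsto (fun p : ℝ => Real.log (1 / (1 / 2 - p))) (𝓝[<] (1 / 2)) atTop := by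
  have h : Tendsto (fun p : ℝ => 1 / 2 - p) (𝓝[<] (1 / 2)) (𝓝[>] 0) := by
    rw [tendsto_nhdsWithin_iff]
    constructor
    · have h1 : Tendsto (fun p : ℝ => 1 / 2 - p) (𝓝 (1 / 2)) (𝓝 (1 / 2 - 1 / 2)) :=
        (continuous_const.sub continuous_id).tendsto _
      rw [sub_self] at h1
      exact h1.mono_left nhdsWithin_le_nhds
    · filter_upwards [self_mem_nhdsWithin] with p hp
      simp only [Set.mem_Iio] at hp
      simp only [Set.mem_Ioi]
      linarith
  have h2 := Real.tendsto_log_atTop.comp (tendsto_inv_nhdsGT_zero.comp h)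
  refine h2.congr fun p => ?_
  simp only [Function.comp_apply, one_div]

theorem sharp_limits (v : ℝ → ℝ) (h0 : ∀ p, 0 ≤ v p)
    (hup : ∀ p, 0 ≤ p → p < 1 / 2 → ∀ k : ℕ, v p ≤ Real.log ((1 - p) / (1 - 2 * p)) + k + 2 +
      (1 / 2) ^ (k + 1) * (v p ^ 2 + 3 * v p + 1))
    (hlow : ∀ p, 0 ≤ p → p < 1 / 2 → ∀ k : ℕ, v p ≤ 2 ^ k →
      Real.log ((1 - p) / (1 - 2 * p)) ≤ v p + k + 1 + (1 / 2) ^ (k + 1) * v p ^ 2) :
    (∀ p, 0 ≤ p → p < 1 / 2 →
      |v p - Real.log ((1 - p) / (1 - 2 * p))| ≤ 4 * Real.log (v p + 2) + 8) ∧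
    Tendsto (fun p : ℝ => v p / Real.log (1 / (1 / 2 - p))) (𝓝[<] (1 / 2)) (𝓝 1) := by
  have key : ∀ p, 0 ≤ p → p < 1 / 2 →
      |v p - Real.log ((1 - p) / (1 - 2 * p))| ≤ 4 * Real.log (v p + 2) + 8 :=
    fun p hp hp2 => pt (v p) _ (h0 p) (hup p hp hp2) (hlow p hp hp2)
  refine ⟨key, ?_⟩
  have hev : ∀ᶠ p : ℝ in 𝓝[<] (1 / 2), |v p / Real.log (1 / (1 / 2 - p)) - 1| ≤
      26 / √(Real.log (1 / (1 / 2 - p))) := by
    have hpos : ∀ᶠ p : ℝ in 𝓝[<] (1 / 2), 0 < p :=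
      nhdsWithin_le_nhds (lt_mem_nhds (by norm_num))
    filter_upwards [Wtop.eventually_ge_atTop 27, hpos, self_mem_nhdsWithin] with p hW hp hp2
    simp only [Set.mem_Iio] at hp2
    refine est (v p) _ (h0 p) hW ?_
    have h1 := key p hp.le hp2
    have h2 : Real.log ((1 - p) / (1 - 2 * p)) =
        Real.log ((1 - p) / 2) + Real.log (1 / (1 / 2 - p)) := by
      rw [← Real.log_mul (by linarith : (0 : ℝ) < (1 - p) / 2).ne'
        (one_div_pos.2 (by linarith : (0 : ℝ) < 1 / 2 - p)).ne']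
      congr 1
      have h3 : (1 - 2 * p) ≠ 0 := by linarith
      have h4 : (1 / 2 - p) ≠ 0 := by linarith
      field_simp
    have hl2 := Real.log_two_lt_d9
    have h3 : Real.log ((1 - p) / 2) ≤ 0 :=
      Real.log_nonpos (by linarith) (by linarith)
    have h4 : -2 ≤ Real.log ((1 - p) / 2) := by
      have h5 : Real.log (1 / 4) ≤ Real.log ((1 - p) / 2) :=
        Real.log_le_log (by norm_num) (by linarith)
      have h6 : Real.log (1 / 4) = -(2 * Real.log 2) := by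
        rw [one_div, Real.log_inv, show (4 : ℝ) = 2 ^ 2 by norm_num, Real.log_pow]
        norm_num
      rw [h6] at h5
      linarith
    rw [h2] at h1
    rw [abs_le] at h1 ⊢
    constructor <;> linarith [h1.1, h1.2]
  have hz : Tendsto (fun p : ℝ => 26 / √(Real.log (1 / (1 / 2 - p)))) (𝓝[<] (1 / 2)) (𝓝 0) :=
    tendsto_const_nhds.div_atTop (Real.tendsto_sqrt_atTop.comp Wtop)
  rw [tendsto_iff_norm_sub_tendsto_zero]
  refine squeeze_zero' (Eventually.of_forall fun _ => norm_nonneg _) ?_ hz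
  filter_upwards [hev] with p hp
  rw [Real.norm_eq_abs]
  exact hp

end Pool.Agent.TH996.LL
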