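import Mathlib

set_option autoImplicit false

namespace Pool.Agent.TH996.LL

private theorem exp_low {x : ℝ} (h0 : 0 ≤ x) (h1 : x ≤ 1 / 2) :
    Real.exp (-(x + x ^ 2)) ≤ 1 - x := by
  have hy : 0 ≤ x + x ^ 2 := by positivity
  have h := Real.quadratic_le_exp_of_nonneg hy
  have hx1 : 0 < 1 - x := by linarith
  have h2 : 0 ≤ x ^ 2 / 2 * (1 - x - x ^ 2 - x ^ 3) := by
    apply mul_nonneg (by positivity)
    have h3 : x ^ 2 ≤ 1 / 4 := by nlinarith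
    have h4 : x ^ 3 ≤ 1 / 8 := by nlinarith
    linarith
  have e : (1 + (x + x ^ 2) + (x + x ^ 2) ^ 2 / 2) * (1 - x)
      = 1 + x ^ 2 / 2 * (1 - x - x ^ 2 - x ^ 3) := by ring
  have h5 : 1 ≤ Real.exp (x + x ^ 2) * (1 - x) := by
    have h6 := mul_le_mul_of_nonneg_right h hx1.le
    linarith
  have h7 : Real.exp (-(x + x ^ 2)) * 1 ≤
      Real.exp (-(x + x ^ 2)) * (Real.exp (x + x ^ 2) * (1 - x)) :=
    mul_le_mul_of_nonneg_left h5 (Real.exp_pos _).le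
  rw [← mul_assoc, ← Real.exp_add, neg_add_cancel, Real.exp_zero, one_mul, mul_one] at h7
  exact h7

private theorem iter_low (d : ℕ → ℝ → ℝ) (h0 : ∀ T s, 0 ≤ s → 0 ≤ d T s)
    (hA : ∀ T s, 0 ≤ s → s ≤ 1 → s * (d T ((1 + s) / 2)) ^ 2 ≤ d (T + 1) s) (k : ℕ) :
    ∀ T : ℕ, Real.exp (-((k : ℝ) / 2 + 1 / 2 - (1 / 2) ^ (k + 1))) *
      (d T (1 - (1 / 2) ^ (k + 1))) ^ (2 ^ k) ≤ d (T + k) (1 / 2) := by
  induction k with
  | zero =>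
    intro T
    norm_num
  | succ k ih =>
    intro T
    have hu0 : (0 : ℝ) < (1 / 2) ^ (k + 1) := by positivity
    have hu1 : ((1 : ℝ) / 2) ^ (k + 1) ≤ 1 / 2 := by
      calc ((1 : ℝ) / 2) ^ (k + 1) ≤ (1 / 2) ^ 1 :=
            pow_le_pow_of_le_one (by norm_num) (by norm_num) (by omega)
        _ = 1 / 2 := pow_one _
    have h1 := ih (T + 1)
    have h2 := hA T (1 - (1 / 2) ^ (k + 1)) (by linarith) (by linarith)
    have e1 : (1 + (1 - (1 / 2 : ℝ) ^ (k + 1))) / 2 = 1 - (1 / 2) ^ (k + 1 + 1) := by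
      rw [pow_succ (1 / 2 : ℝ) (k + 1)]; ring
    rw [e1] at h2
    have h3 : Real.exp (-((1 / 2 : ℝ) ^ (k + 1) + ((1 / 2) ^ (k + 1)) ^ 2)) ≤
        1 - (1 / 2) ^ (k + 1) := exp_low hu0.le hu1
    have hd0 : 0 ≤ d T (1 - (1 / 2) ^ (k + 1 + 1)) := by
      apply h0
      have : ((1 : ℝ) / 2) ^ (k + 1 + 1) ≤ 1 := pow_le_one₀ (by norm_num) (by norm_num)
      linarith
    have h4 : Real.exp (-((1 / 2 : ℝ) ^ (k + 1) + ((1 / 2) ^ (k + 1)) ^ 2)) *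
        (d T (1 - (1 / 2) ^ (k + 1 + 1))) ^ 2 ≤ d (T + 1) (1 - (1 / 2) ^ (k + 1)) :=
      (mul_le_mul_of_nonneg_right h3 (by positivity)).trans h2
    have h5 := pow_le_pow_left₀ (by positivity) h4 (2 ^ k)
    rw [mul_pow, ← pow_mul (d T (1 - (1 / 2) ^ (k + 1 + 1))) 2 (2 ^ k), ← Real.exp_nat_mul] at h5
    have h6 := mul_le_mul_of_nonneg_left h5
      (Real.exp_pos (-((k : ℝ) / 2 + 1 / 2 - (1 / 2) ^ (k + 1)))).le
    have h7 := h6.trans h1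
    rw [← mul_assoc, ← Real.exp_add] at h7
    have e2 : (2 : ℝ) ^ k * (1 / 2) ^ (k + 1) = 1 / 2 := by
      rw [pow_succ, ← mul_assoc, ← mul_pow]; norm_num
    have e3 : -((k : ℝ) / 2 + 1 / 2 - (1 / 2) ^ (k + 1)) +
        ((2 ^ k : ℕ) : ℝ) * -((1 / 2) ^ (k + 1) + ((1 / 2) ^ (k + 1)) ^ 2) =
        -(((k + 1 : ℕ) : ℝ) / 2 + 1 / 2 - (1 / 2) ^ (k + 1 + 1)) := by
      push_cast
      rw [pow_succ (1 / 2 : ℝ) (k + 1)]
      have e4 : (2 : ℝ) ^ k * -((1 / 2) ^ (k + 1) + ((1 / 2) ^ (k + 1)) ^ 2) =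
          -(1 / 2 + 1 / 2 * (1 / 2) ^ (k + 1)) := by
        have : (2 : ℝ) ^ k * -((1 / 2) ^ (k + 1) + ((1 / 2) ^ (k + 1)) ^ 2) =
          -(2 ^ k * (1 / 2) ^ (k + 1) + (2 ^ k * (1 / 2) ^ (k + 1)) * (1 / 2) ^ (k + 1)) := by ring
        rw [this, e2]
      rw [e4]
      ring
    rw [e3] at h7
    have e5 : 2 * 2 ^ k = 2 ^ (k + 1) := by ring
    have e6 : T + 1 + k = T + (k + 1) := by ring
    rw [e5, e6] at h7
    exact h7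

theorem analysis_low (p : ℝ) (hp : 0 ≤ p) (hp2 : p < 1 / 2) (d : ℕ → ℝ → ℝ) (m : ℕ → ℝ) (μ : ℝ)
    (hμ : 0 ≤ μ) (h0 : ∀ T s, 0 ≤ s → 0 ≤ d T s)
    (hA : ∀ T s, 0 ≤ s → s ≤ 1 → s * (d T ((1 + s) / 2)) ^ 2 ≤ d (T + 1) s)
    (hJ : ∀ T u, 0 ≤ u → u ≤ 1 → 1 - u * m T ≤ d T (1 - u)) (hm : ∀ T, m T ≤ μ)
    (hlim : Filter.Tendsto (fun T => (d T (1 / 2)) ^ 2) Filter.atTop
      (nhds ((1 - 2 * p) / (1 - p)))) (k : ℕ) (hk : μ ≤ 2 ^ k) :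
    Real.log ((1 - p) / (1 - 2 * p)) ≤ μ + k + 1 + (1 / 2) ^ (k + 1) * μ ^ 2 := by
  have hu0 : (0 : ℝ) < (1 / 2) ^ (k + 1) := by positivity
  have hu1 : ((1 : ℝ) / 2) ^ (k + 1) ≤ 1 := pow_le_one₀ (by norm_num) (by norm_num)
  have e2 : (2 : ℝ) ^ k * (1 / 2) ^ (k + 1) = 1 / 2 := by
    rw [pow_succ, ← mul_assoc, ← mul_pow]; norm_num
  have hub : (1 / 2 : ℝ) ^ (k + 1) * μ ≤ 1 / 2 := by
    calc (1 / 2 : ℝ) ^ (k + 1) * μ ≤ (1 / 2) ^ (k + 1) * 2 ^ k :=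
          mul_le_mul_of_nonneg_left hk hu0.le
      _ = 1 / 2 := by rw [mul_comm]; exact e2
  have hlow : ∀ T : ℕ, Real.exp (-(μ + k + 1 + (1 / 2) ^ (k + 1) * μ ^ 2)) ≤
      (d (T + k) (1 / 2)) ^ 2 := by
    intro T
    have h1 := iter_low d h0 hA k T
    have h2 : Real.exp (-((1 / 2 : ℝ) ^ (k + 1) * μ + ((1 / 2) ^ (k + 1) * μ) ^ 2)) ≤
        d T (1 - (1 / 2) ^ (k + 1)) := by
      have h3 := exp_low (by positivity : 0 ≤ (1 / 2 : ℝ) ^ (k + 1) * μ) hub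
      have h4 := hJ T ((1 / 2) ^ (k + 1)) hu0.le hu1
      have h5 := mul_le_mul_of_nonneg_left (hm T) hu0.le
      linarith
    have h6 := pow_le_pow_left₀ (by positivity) h2 (2 ^ k)
    rw [← Real.exp_nat_mul] at h6
    have h7 := (mul_le_mul_of_nonneg_left h6
      (Real.exp_pos (-((k : ℝ) / 2 + 1 / 2 - (1 / 2) ^ (k + 1)))).le).trans h1
    rw [← Real.exp_add] at h7
    have h8 := pow_le_pow_left₀ (by positivity) h7 2
    rw [← Real.exp_nat_mul] at h8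
    refine le_trans (Real.exp_le_exp.2 ?_) h8
    have e4 : ((2 ^ k : ℕ) : ℝ) * -((1 / 2 : ℝ) ^ (k + 1) * μ + ((1 / 2) ^ (k + 1) * μ) ^ 2) =
        -(1 / 2 * μ + 1 / 2 * ((1 / 2) ^ (k + 1) * μ ^ 2)) := by
      push_cast
      have : (2 : ℝ) ^ k * -((1 / 2 : ℝ) ^ (k + 1) * μ + ((1 / 2) ^ (k + 1) * μ) ^ 2) =
        -((2 ^ k * (1 / 2) ^ (k + 1)) * μ +
          (2 ^ k * (1 / 2) ^ (k + 1)) * ((1 / 2) ^ (k + 1) * μ ^ 2)) := by ring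
      rw [this, e2]
    rw [e4]
    push_cast
    linarith
  have hlim2 : Filter.Tendsto (fun T => (d (T + k) (1 / 2)) ^ 2) Filter.atTop
      (nhds ((1 - 2 * p) / (1 - p))) := (Filter.tendsto_add_atTop_iff_nat k).2 hlim
  have hfin : Real.exp (-(μ + k + 1 + (1 / 2) ^ (k + 1) * μ ^ 2)) ≤ (1 - 2 * p) / (1 - p) :=
    ge_of_tendsto' hlim2 hlow
  have hp3 : 0 < 1 - 2 * p := by linarith
  have hp4 : 0 < 1 - p := by linarith
  have h9 := (Real.le_log_iff_exp_le (by positivity)).2 hfin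
  have h10 : Real.log ((1 - p) / (1 - 2 * p)) = - Real.log ((1 - 2 * p) / (1 - p)) := by
    rw [← Real.log_inv, inv_div]
  rw [h10]
  linarith

end Pool.Agent.TH996.LL
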