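import Mathlib

set_option autoImplicit false

namespace Pool.Agent.TH996.LL

private theorem an996_rho (p x : ℝ) (hp : 0 ≤ p) (hp2 : p < 1 / 2) (hx : 0 < x) (hx2 : x ≤ 1 / 2) :
    p * (1 - x) + (1 - p) / (1 - x) ≤ Real.exp (x + 2 * x ^ 2) := by
  have h1 : 1 / (1 - x) ≤ 1 + x + 2 * x ^ 2 := by
    rw [div_le_iff₀ (by linarith)]
    nlinarith [mul_nonneg (sq_nonneg x) (by linarith : (0 : ℝ) ≤ 1 - 2 * x)]
  have h2 : (1 - p) / (1 - x) = (1 - p) * (1 / (1 - x)) := by ring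
  have h3 : (1 - p) * (1 / (1 - x)) ≤ (1 - p) * (1 + x + 2 * x ^ 2) :=
    mul_le_mul_of_nonneg_left h1 (by linarith)
  have h4 : p * (1 - x) ≤ p * (1 + x + 2 * x ^ 2) :=
    mul_le_mul_of_nonneg_left (by nlinarith) hp
  have h5 := Real.add_one_le_exp (x + 2 * x ^ 2)
  rw [h2]
  linarith

private theorem an996_iter (p : ℝ) (hp : 0 ≤ p) (hp2 : p < 1 / 2) (d : ℕ → ℝ → ℝ)
    (h0 : ∀ T s, 0 ≤ s → 0 ≤ d T s)
    (hA : ∀ T s, 0 < s → s ≤ 1 → d (T + 1) s ≤ (p * s + (1 - p) / s) * (d T ((1 + s) / 2)) ^ 2)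
    (k : ℕ) : ∀ T : ℕ, d (T + k) (1 / 2) ≤
      Real.exp ((k : ℝ) / 2 + 1 - (1 / 2) ^ k) * (d T (1 - (1 / 2) ^ (k + 1))) ^ (2 ^ k) := by
  induction k with
  | zero =>
    intro T
    norm_num
  | succ k ih =>
    intro T
    have h := ih (T + 1)
    have e1 : T + 1 + k = T + (k + 1) := by ring
    rw [e1] at h
    set x : ℝ := (1 / 2) ^ (k + 1) with hx
    have hx0 : 0 < x := by positivity
    have hx1 : x ≤ 1 / 2 := by
      rw [hx, pow_succ]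
      have : ((1 : ℝ) / 2) ^ k ≤ 1 := pow_le_one₀ (by norm_num) (by norm_num)
      linarith
    have hA1 := hA T (1 - x) (by linarith) (by linarith)
    have e2 : (1 + (1 - x)) / 2 = 1 - (1 / 2) ^ (k + 1 + 1) := by
      rw [pow_succ, ← hx]
      ring
    rw [e2] at hA1
    set D : ℝ := d T (1 - (1 / 2) ^ (k + 1 + 1)) with hD
    have hrho := an996_rho p x hp hp2 hx0 hx1
    have hstep : d (T + 1) (1 - x) ≤ Real.exp (x + 2 * x ^ 2) * D ^ 2 :=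
      hA1.trans (mul_le_mul_of_nonneg_right hrho (sq_nonneg D))
    have hpow : (d (T + 1) (1 - x)) ^ (2 ^ k) ≤ (Real.exp (x + 2 * x ^ 2) * D ^ 2) ^ (2 ^ k) :=
      pow_le_pow_left₀ (h0 _ _ (by linarith)) hstep _
    have e3 : (Real.exp (x + 2 * x ^ 2) * D ^ 2) ^ (2 ^ k) =
        Real.exp ((2 : ℝ) ^ k * (x + 2 * x ^ 2)) * D ^ (2 ^ (k + 1)) := by
      rw [mul_pow, ← Real.exp_nat_mul, ← pow_mul D 2 (2 ^ k), ← pow_succ' 2 k]
      norm_num
    have e4 : (2 : ℝ) ^ k * (x + 2 * x ^ 2) = 1 / 2 + x := by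
      have h2x : (2 : ℝ) ^ k * x = 1 / 2 := by
        rw [hx, pow_succ, ← mul_assoc, ← mul_pow]
        norm_num
      calc (2 : ℝ) ^ k * (x + 2 * x ^ 2) = ((2 : ℝ) ^ k * x) + 2 * ((2 : ℝ) ^ k * x) * x := by ring
        _ = 1 / 2 + x := by rw [h2x]; ring
    rw [e3, e4] at hpow
    have e5 : ((k + 1 : ℕ) : ℝ) / 2 + 1 - (1 / 2) ^ (k + 1) =
        ((k : ℝ) / 2 + 1 - (1 / 2) ^ k) + (1 / 2 + x) := by
      have : ((1 : ℝ) / 2) ^ k = 2 * x := by rw [hx, pow_succ]; ring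
      rw [this, ← hx]
      push_cast
      ring
    rw [e5, Real.exp_add, mul_assoc]
    exact h.trans (mul_le_mul_of_nonneg_left hpow (Real.exp_pos _).le)

theorem analysis_up (p : ℝ) (hp : 0 ≤ p) (hp2 : p < 1 / 2) (d : ℕ → ℝ → ℝ) (m M : ℕ → ℝ)
    (h0 : ∀ T s, 0 ≤ s → 0 ≤ d T s) (hm : ∀ T, 0 ≤ m T)
    (hA : ∀ T s, 0 < s → s ≤ 1 → d (T + 1) s ≤ (p * s + (1 - p) / s) * (d T ((1 + s) / 2)) ^ 2)
    (hB : ∀ T, (1 - 2 * p) / (1 - p) ≤ (d T (1 / 2)) ^ 2)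
    (hC : ∀ T u, 0 ≤ u → u ≤ 1 → d T (1 - u) ≤ 1 - u * m T + u ^ 2 * M T)
    (hE : ∀ T, M T ≤ m T ^ 2 + 3 * m T + 1) (T : ℕ) :
    ∀ k : ℕ, m T ≤ Real.log ((1 - p) / (1 - 2 * p)) + k + 2 +
      (1 / 2) ^ (k + 1) * (m T ^ 2 + 3 * m T + 1) := by
  set L : ℝ := Real.log ((1 - p) / (1 - 2 * p)) with hL
  have hmT := hm T
  have hLe : Real.log ((1 - 2 * p) / (1 - p)) = -L := by
    rw [hL, ← Real.log_inv, inv_div]
  have main : ∀ k : ℕ, m T ≤ L + k + 2 + (1 / 2) ^ (k + 1) * (m T ^ 2 + 3 * m T + 1) := by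
    intro k
    set u : ℝ := (1 / 2) ^ (k + 1) with hu
    have hu0 : 0 < u := by positivity
    have hu1 : u ≤ 1 := pow_le_one₀ (by norm_num) (by norm_num)
    have h2u : (2 : ℝ) ^ k * u = 1 / 2 := by
      rw [hu, pow_succ, ← mul_assoc, ← mul_pow]
      norm_num
    have hit := an996_iter p hp hp2 d h0 hA k T
    rw [← hu] at hit
    have hd0 : 0 ≤ d T (1 - u) := h0 _ _ (by linarith)
    have hd1 : d T (1 - u) ≤ Real.exp (-(u * m T) + u ^ 2 * M T) := by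
      have h1 := hC T u hu0.le hu1
      have h2 := Real.add_one_le_exp (-(u * m T) + u ^ 2 * M T)
      linarith
    have hd2 : (d T (1 - u)) ^ (2 ^ k) ≤ Real.exp (-(m T) / 2 + u * M T / 2) := by
      have h1 := pow_le_pow_left₀ hd0 hd1 (2 ^ k)
      rw [← Real.exp_nat_mul] at h1
      have e : ((2 ^ k : ℕ) : ℝ) * (-(u * m T) + u ^ 2 * M T) = -(m T) / 2 + u * M T / 2 := by
        push_cast
        calc (2 : ℝ) ^ k * (-(u * m T) + u ^ 2 * M T)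
            = -((2 : ℝ) ^ k * u) * m T + ((2 : ℝ) ^ k * u) * u * M T := by ring
          _ = -(m T) / 2 + u * M T / 2 := by rw [h2u]; ring
      rwa [e] at h1
    have hd3 : d (T + k) (1 / 2) ≤
        Real.exp (((k : ℝ) / 2 + 1 - (1 / 2) ^ k) + (-(m T) / 2 + u * M T / 2)) := by
      rw [Real.exp_add]
      exact hit.trans (mul_le_mul_of_nonneg_left hd2 (Real.exp_pos _).le)
    have hd4 : (d (T + k) (1 / 2)) ^ 2 ≤
        Real.exp (2 * (((k : ℝ) / 2 + 1 - (1 / 2) ^ k) + (-(m T) / 2 + u * M T / 2))) := by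
      have h1 := pow_le_pow_left₀ (h0 (T + k) (1 / 2) (by norm_num)) hd3 2
      rw [← Real.exp_nat_mul] at h1
      exact_mod_cast h1
    have hpos : 0 < (1 - 2 * p) / (1 - p) := div_pos (by linarith) (by linarith)
    have h5 := (hB (T + k)).trans hd4
    have h6 := Real.log_le_log hpos h5
    rw [Real.log_exp, hLe] at h6
    have h7 : u * M T ≤ u * (m T ^ 2 + 3 * m T + 1) := mul_le_mul_of_nonneg_left (hE T) hu0.le
    have h8 : (0 : ℝ) < (1 / 2) ^ k := by positivity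
    linarith
  exact main

end Pool.Agent.TH996.LL
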