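import Pool.Agent.TH996.Link

/-!
Kernels on graphs whose backward cones are binary trees: definitions.
-/

namespace Pool.Agent.TH996.LL

open MeasureTheory Measure Finset Pool.Agent.TH996.Park

variable {V : Type*} [DecidableEq V]

/-- Every vertex `x` has exactly two vertices `inn x c` from which the walk can step to `x`, each
with probability one half, and the backward cones of these two are disjoint. -/
structure Bin (S : Tri V) where
  /-- the two vertices from which one can step to `x` -/
  inn : V → Bool → V
  ne : ∀ x, inn x false ≠ inn x true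
  mem : ∀ x c, inn x c ∈ S.nb x
  ker : ∀ x c, S.K (inn x c) x = 1 / 2
  supp : ∀ x y, S.K y x ≠ 0 → ∃ c, y = inn x c
  /-- the backward cone -/
  cone : V → Set V
  self_mem : ∀ x, x ∈ cone x
  cone_inn : ∀ x c, cone (inn x c) ⊆ cone x
  not_mem : ∀ x c, x ∉ cone (inn x c)
  disj : ∀ x, Disjoint (cone (inn x false)) (cone (inn x true))

/-- the probability space without killing -/
abbrev Om0 (V : Type*) := (V → Bool) × (ℕ × V × ℕ → V)

/-- `F` depends only on the initial states of the vertices in `J` and on the steps from the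
vertices in `J'`. -/
def Dep {α : Type*} (J J' : Set V) (F : Om0 V → α) : Prop :=
  ∀ ω ω' : Om0 V, (∀ z ∈ J, ω.1 z = ω'.1 z) →
    (∀ z ∈ J', ∀ t i, ω.2 (t, z, i) = ω'.2 (t, z, i)) → F ω = F ω'

variable {S : Tri V} (B : Bin S)

/-- the two in-neighbours -/
def inb (x : V) : Finset V := {B.inn x false, B.inn x true}

/-- unparked cars at `x` at time `t` -/
def Cs (t : ℕ) (x : V) (ω : Om0 V) : ℕ :=
  cs (inb B) ω.2 (fun _ => false) (c0 ω.1) (f0 ω.1) t x

/-- departures from `x` at the times `0, ..., T` -/
def D (T : ℕ) (x : V) (ω : Om0 V) : ℕ := ∑ t ∈ range (T + 1), Cs B t x ω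

/-- steps from `y` to `x` at the times `0, ..., T` -/
def N (T : ℕ) (y x : V) (ω : Om0 V) : ℕ :=
  ∑ t ∈ range (T + 1), ((range (Cs B t y ω)).filter fun i => ω.2 (t, y, i) = x).card

/-- arrivals at `x` at the times `1, ..., T + 1` -/
def R (T : ℕ) (x : V) (ω : Om0 V) : ℕ := N B T (B.inn x false) x ω + N B T (B.inn x true) x ω

end Pool.Agent.TH996.LL
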