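import Pool.Agent.TH996.LL.Defs

/-!
Independence of functions of disjoint sets of coordinates.
-/

namespace Pool.Agent.TH996.LL

open MeasureTheory Measure Finset Pool.Agent.TH996.Park

section single

variable {ι X : Type*} [MeasurableSpace X]

open Classical in
/-- the coordinates in `J` of the first point, the other coordinates of the second one -/
noncomputable def indepGlue (J : Set ι) (p : (ι → X) × (ι → X)) : ι → X :=
  fun i => if i ∈ J then p.1 i else p.2 i

lemma indepGlue_meas (J : Set ι) : Measurable (indepGlue (X := X) J) := by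
  refine measurable_pi_lambda _ fun i => ?_
  by_cases h : i ∈ J
  · have : (fun p : (ι → X) × (ι → X) => indepGlue J p i) = fun p => p.1 i := by
      funext p; exact if_pos h
    rw [this]
    exact (measurable_pi_apply i).comp measurable_fst
  · have : (fun p : (ι → X) × (ι → X) => indepGlue J p i) = fun p => p.2 i := by
      funext p; exact if_neg h
    rw [this]
    exact (measurable_pi_apply i).comp measurable_snd

variable (μ : ι → Measure X) [∀ i, IsProbabilityMeasure (μ i)]

lemma indepGlue_map (J : Set ι) :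
    ((infinitePi μ).prod (infinitePi μ)).map (indepGlue J) = infinitePi μ := by
  classical
  refine eq_infinitePi μ fun s t ht => ?_
  rw [map_apply (indepGlue_meas J) (.pi s.countable_toSet fun _ _ ↦ ht _)]
  have : (indepGlue (X := X) J) ⁻¹' ((s : Set ι).pi t) =
      (((s.filter (fun i => i ∈ J) : Finset ι) : Set ι).pi t) ×ˢ
        (((s.filter (fun i => ¬ i ∈ J) : Finset ι) : Set ι).pi t) := by
    ext p
    simp only [Set.mem_preimage, Set.mem_pi, Finset.mem_coe, Set.mem_prod, Finset.mem_filter,
      indepGlue]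
    constructor
    · intro h
      refine ⟨fun i hi => ?_, fun i hi => ?_⟩
      · have := h i hi.1
        rwa [if_pos hi.2] at this
      · have := h i hi.1
        rwa [if_neg hi.2] at this
    · rintro ⟨h1, h2⟩ i hi
      by_cases hJ : i ∈ J
      · rw [if_pos hJ]; exact h1 i ⟨hi, hJ⟩
      · rw [if_neg hJ]; exact h2 i ⟨hi, hJ⟩
  rw [this, prod_prod, infinitePi_pi _ (fun i _ => ht i), infinitePi_pi _ (fun i _ => ht i)]
  exact Finset.prod_filter_mul_prod_filter_not s _ _

lemma indep_single {J1 J2 : Set ι} (h : Disjoint J1 J2) {f g : (ι → X) → ℝ} (hf : BM f)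
    (hg : BM g) (df : ∀ x y, (∀ i ∈ J1, x i = y i) → f x = f y)
    (dg : ∀ x y, (∀ i ∈ J2, x i = y i) → g x = g y) :
    ∫ x, f x * g x ∂(infinitePi μ) = (∫ x, f x ∂(infinitePi μ)) * ∫ x, g x ∂(infinitePi μ) := by
  have hm := indepGlue_meas (X := X) J1
  have h1 : ∫ x, f x * g x ∂(infinitePi μ) =
      ∫ p : (ι → X) × (ι → X), f (indepGlue J1 p) * g (indepGlue J1 p)
        ∂((infinitePi μ).prod (infinitePi μ)) := by
    conv_lhs => rw [← indepGlue_map μ J1]
    exact integral_map hm.aemeasurable (hf.mul hg).meas.aestronglyMeasurable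
  have h2 : (fun p : (ι → X) × (ι → X) => f (indepGlue J1 p) * g (indepGlue J1 p)) =
      fun p => f p.1 * g p.2 := by
    funext p
    have e1 : f (indepGlue J1 p) = f p.1 := df _ _ fun i hi => if_pos hi
    have e2 : g (indepGlue J1 p) = g p.2 := dg _ _ fun i hi =>
      if_neg (Set.disjoint_right.1 h hi)
    rw [e1, e2]
  rw [h1, h2]
  exact integral_prod_mul f g

end single

variable {V : Type*} [DecidableEq V] [MeasurableSpace V] [MeasurableSingletonClass V] [Countable V]

section B

variable {S : Tri V} (B : Bin S)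

theorem indep (S : Tri V) {p : ℝ} (hp : 0 ≤ p ∧ p ≤ 1) {J1 J1' J2 J2' : Set V}
    (h : Disjoint J1 J2) (h' : Disjoint J1' J2') {F G : Om0 V → ℝ} (hF : BM F) (hG : BM G)
    (dF : Dep J1 J1' F) (dG : Dep J2 J2' G) :
    ∫ ω, F ω * G ω ∂(S.law0 p) = (∫ ω, F ω ∂(S.law0 p)) * ∫ ω, G ω ∂(S.law0 p) := by
  have hb := bern_prob hp.1 hp.2
  have hl := law0_prob S hp
  set P1 : Measure (V → Bool) := infinitePi fun _ : V => bern p with hP1
  set P2 : Measure (ℕ × V × ℕ → V) :=
    infinitePi fun a : ℕ × V × ℕ => stepLaw S.nb S.K a.2.1 with hP2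
  have hlaw : S.law0 p = P1.prod P2 := rfl
  -- integration over the steps keeps bounded measurable functions
  have hbm : ∀ {H : Om0 V → ℝ}, BM H → BM fun a => ∫ b, H (a, b) ∂P2 := by
    intro H hH
    obtain ⟨C, hC⟩ := hH.bdd
    refine ⟨hH.meas.stronglyMeasurable.integral_prod_right'.measurable, C, fun a => ?_⟩
    have := norm_integral_le_of_norm_le_const (μ := P2) (f := fun b => H (a, b)) (C := C)
      (Filter.Eventually.of_forall fun b => by rw [Real.norm_eq_abs]; exact hC _)
    simpa using this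
  have hsec : ∀ {H : Om0 V → ℝ}, BM H → ∀ a, BM fun b => H (a, b) := by
    intro H hH a
    exact hH.comp (measurable_const.prodMk measurable_id)
  have hd : Disjoint {a : ℕ × V × ℕ | a.2.1 ∈ J1'} {a : ℕ × V × ℕ | a.2.1 ∈ J2'} := by
    rw [Set.disjoint_left]
    intro a ha hb
    exact Set.disjoint_left.1 h' ha hb
  have hin : ∀ a : V → Bool, ∫ b, F (a, b) * G (a, b) ∂P2 =
      (∫ b, F (a, b) ∂P2) * ∫ b, G (a, b) ∂P2 := by
    intro a
    refine indep_single _ hd (hsec hF a) (hsec hG a) ?_ ?_
    · intro x y hxy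
      exact dF _ _ (fun _ _ => rfl) fun z hz t i => hxy (t, z, i) hz
    · intro x y hxy
      exact dG _ _ (fun _ _ => rfl) fun z hz t i => hxy (t, z, i) hz
  have hout : ∫ a, (∫ b, F (a, b) ∂P2) * (∫ b, G (a, b) ∂P2) ∂P1 =
      (∫ a, (∫ b, F (a, b) ∂P2) ∂P1) * ∫ a, (∫ b, G (a, b) ∂P2) ∂P1 := by
    refine indep_single _ h (hbm hF) (hbm hG) ?_ ?_
    · intro x y hxy
      exact integral_congr_ae (Filter.Eventually.of_forall fun b =>
        dF _ _ hxy fun _ _ _ _ => rfl)
    · intro x y hxy
      exact integral_congr_ae (Filter.Eventually.of_forall fun b =>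
        dG _ _ hxy fun _ _ _ _ => rfl)
  have hi : ∀ {H : Om0 V → ℝ}, BM H → Integrable H (P1.prod P2) := fun hH => hH.integrable _
  rw [hlaw, integral_prod _ (hi (hF.mul hG)), integral_prod _ (hi hF), integral_prod _ (hi hG),
    ← hout]
  exact integral_congr_ae (Filter.Eventually.of_forall hin)

end B

end Pool.Agent.TH996.LL
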