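import Pool.Agent.TH996.LL.Defs

/-!
The process with the two in-neighbours and the full model.
-/

namespace Pool.Agent.TH996.LL

open MeasureTheory Measure Finset Pool.Agent.TH996.Park

variable {V : Type*} [DecidableEq V] [MeasurableSpace V] [MeasurableSingletonClass V] [Countable V]

/-- all steps have positive probability -/
def GoodXi (S : Tri V) (ξ : ℕ × V × ℕ → V) : Prop := ∀ a, S.K a.2.1 (ξ a) ≠ 0

lemma stepLaw_ker_zero (S : Tri V) (y : V) : stepLaw S.nb S.K y {z | S.K y z = 0} = 0 := by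
  have hm : MeasurableSet {z | S.K y z = 0} := (Set.to_countable _).measurableSet
  unfold stepLaw
  rw [Measure.finsetSum_apply]
  refine sum_eq_zero fun z _ => ?_
  rw [Measure.smul_apply, dirac_apply' _ hm, smul_eq_mul]
  by_cases h : S.K y z = 0
  · simp [h]
  · simp [h]

lemma goodXi_ae (S : Tri V) {p : ℝ} (hp : 0 ≤ p ∧ p ≤ 1) :
    ∀ᵐ ω ∂(S.law0 p), GoodXi S ω.2 := by
  have := bern_prob hp.1 hp.2
  refine ae_all_iff.2 fun a => ?_
  have hpr : MeasurePreserving (fun ω : Om0 V => ω.2 a) (S.law0 p)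
      (stepLaw S.nb S.K a.2.1) :=
    (measurePreserving_eval_infinitePi
      (fun a : ℕ × V × ℕ => stepLaw S.nb S.K a.2.1) a).comp measurePreserving_snd
  have h2 : ∀ᵐ z ∂(stepLaw S.nb S.K a.2.1), S.K a.2.1 z ≠ 0 := by
    rw [ae_iff]
    simpa using stepLaw_ker_zero S a.2.1
  exact hpr.quasiMeasurePreserving.ae h2

section B

variable {S : Tri V} (B : Bin S)

omit [MeasurableSpace V] [MeasurableSingletonClass V] [Countable V] in
lemma link_inb (ξ : ℕ × V × ℕ → V) (b : ℕ × V × ℕ → Bool) (c f : V → ℕ) (hξ : GoodXi S ξ)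
    (t : ℕ) : (∀ x, cs S.nb ξ b c f t x = cs (inb B) ξ b c f t x) ∧
      (∀ x, fr S.nb ξ b c f t x = fr (inb B) ξ b c f t x) ∧
      (∀ x, ar S.nb ξ b c f t x = ar (inb B) ξ b c f t x) := by
  have key : ∀ t, (∀ x, cs S.nb ξ b c f t x = cs (inb B) ξ b c f t x) →
      ∀ x, ar S.nb ξ b c f t x = ar (inb B) ξ b c f t x := by
    intro t h x
    rw [ar_eq, ar_eq]
    simp_rw [← h]
    symm
    refine sum_subset ?_ ?_
    · intro y hy
      simp only [inb, mem_insert, mem_singleton] at hy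
      rcases hy with rfl | rfl
      · exact B.mem x false
      · exact B.mem x true
    · intro y _ hy
      rw [card_eq_zero, filter_eq_empty_iff]
      rintro i _ ⟨_, h2⟩
      have h3 : S.K y (ξ (t, y, i)) ≠ 0 := hξ (t, y, i)
      rw [h2] at h3
      obtain ⟨d, hd⟩ := B.supp x y h3
      apply hy
      cases d <;> simp [inb, hd]
  induction t with
  | zero => exact ⟨fun x => rfl, fun x => rfl, key 0 fun x => rfl⟩
  | succ t ih =>
    have h1 : ∀ x, cs S.nb ξ b c f (t + 1) x = cs (inb B) ξ b c f (t + 1) x := fun x => by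
      rw [cs_succ, cs_succ, ih.2.2 x, ih.2.1 x]
    exact ⟨h1, fun x => by rw [fr_succ, fr_succ, ih.2.2 x, ih.2.1 x], key _ h1⟩

/-- departures in the full model -/
def DC (S : Tri V) (T : ℕ) (x : V) (ω : Om V) : ℕ := ∑ t ∈ range (T + 1), Cn S.nb t x ω

lemma D_ae {p : ℝ} (hp : 0 ≤ p ∧ p ≤ 1) (T : ℕ) (x : V) :
    ∀ᵐ ω ∂(S.law0 p), D B T x ω = DC S T x (emb ω) := by
  filter_upwards [goodXi_ae S hp] with ω hω
  unfold D DC
  refine sum_congr rfl fun t _ => ?_
  exact ((link_inb B ω.2 (fun _ => false) (c0 ω.1) (f0 ω.1) hω t).1 x).symm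

theorem mean_D {p : ℝ} (hp : 0 ≤ p ∧ p ≤ 1) (T : ℕ) (x : V) :
    ∫ ω, (D B T x ω : ℝ) ∂(S.law0 p) = ∑ t ∈ range (T + 1), aT S p 0 x t := by
  have := law0_prob S hp
  have h1 : ∫ ω, (D B T x ω : ℝ) ∂(S.law0 p) =
      ∫ ω, ∑ t ∈ range (T + 1), (Cn S.nb t x (emb ω) : ℝ) ∂(S.law0 p) := by
    refine integral_congr_ae ?_
    filter_upwards [D_ae B hp T x] with ω hω
    simp only [hω, DC, Nat.cast_sum]
  rw [h1, integral_finsetSum _ fun t _ => ((bm_C S.nb t x).comp measurable_emb).integrable _]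
  refine sum_congr rfl fun t _ => ?_
  unfold aT
  exact (law_emb S hp (bm_C S.nb t x)).symm

omit [Countable V] in
lemma DC_bm (S : Tri V) (T : ℕ) (x : V) (φ : ℕ → ℝ) : BM fun ω => φ (DC S T x ω) := by
  have hm : Measurable (DC S T x) := by
    unfold DC
    exact Finset.measurable_fun_sum _ fun t _ => (measurable_CF S.nb t).1 x
  refine ⟨(measurable_of_countable φ).comp hm,
    ∑ k ∈ range (∑ t ∈ range (T + 1), bd S.nb t x + 1), |φ k|, fun ω => ?_⟩
  have hle : DC S T x ω ≤ ∑ t ∈ range (T + 1), bd S.nb t x :=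
    sum_le_sum fun t _ => cs_le_bd S.nb _ _ _ _ (c0_le ω.1) t x
  exact single_le_sum (f := fun k => |φ k|) (fun k _ => abs_nonneg _)
    (mem_range.2 (Nat.lt_succ_of_le hle))

theorem D_inv {p : ℝ} (hp : 0 ≤ p ∧ p ≤ 1) (T : ℕ) (x y : V) (φ : ℕ → ℝ) :
    ∫ ω, φ (D B T x ω) ∂(S.law0 p) = ∫ ω, φ (D B T y ω) ∂(S.law0 p) := by
  have h1 : ∀ z : V, ∫ ω, φ (D B T z ω) ∂(S.law0 p) = ∫ ω, φ (DC S T z ω) ∂(S.law p 0) := by
    intro z
    rw [law_emb S hp (DC_bm S T z φ)]
    refine integral_congr_ae ?_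
    filter_upwards [D_ae B hp T z] with ω hω
    rw [hω]
  obtain ⟨γ, hγ, hxy⟩ := S.trans x y
  rw [h1, h1, ← integral_shift S hγ hp.1 hp.2 le_rfl zero_le_one (DC_bm S T y φ)]
  refine integral_congr_ae (Filter.Eventually.of_forall fun ω => ?_)
  have h2 : DC S T y (shift γ ω) = DC S T x ω := by
    unfold DC
    refine sum_congr rfl fun t _ => ?_
    rw [← hxy, Cn_shift S hγ]
  simp only [h2]

end B

end Pool.Agent.TH996.LL
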