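import Pool.Agent.TH996.LL.Defs

/-!
Locality, balance and measurability of the count process (job 5614, helper329).
-/

namespace Pool.Agent.TH996.LL

open MeasureTheory Measure Finset Pool.Agent.TH996.Park

variable {V : Type*} [DecidableEq V] [MeasurableSpace V] [MeasurableSingletonClass V] [Countable V]

section B

omit [DecidableEq V] [MeasurableSpace V] [MeasurableSingletonClass V] [Countable V] in
theorem Local_mono {α : Type*} {J J' K K' : Set V} {F : Om0 V → α} (h : Dep J J' F)
    (h1 : J ⊆ K) (h2 : J' ⊆ K') : Dep K K' F := fun ω ω' h3 h4 =>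
  h ω ω' (fun z hz => h3 z (h1 hz)) (fun z hz => h4 z (h2 hz))

variable {S : Tri V} (B : Bin S)

/-- free spots -/
def LocalF (t : ℕ) (x : V) (ω : Om0 V) : ℕ :=
  fr (inb B) ω.2 (fun _ => false) (c0 ω.1) (f0 ω.1) t x

/-- arrivals -/
def LocalA (t : ℕ) (x : V) (ω : Om0 V) : ℕ :=
  ar (inb B) ω.2 (fun _ => false) (c0 ω.1) (f0 ω.1) t x

omit [MeasurableSpace V] [MeasurableSingletonClass V] [Countable V] in
theorem Local_A (t : ℕ) (x : V) (ω : Om0 V) : LocalA B t x ω =
    ((range (Cs B t (B.inn x false) ω)).filter fun i => ω.2 (t, B.inn x false, i) = x).card +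
    ((range (Cs B t (B.inn x true) ω)).filter fun i => ω.2 (t, B.inn x true, i) = x).card := by
  have h : LocalA B t x ω = ∑ y ∈ ({B.inn x false, B.inn x true} : Finset V),
      ((range (Cs B t y ω)).filter fun i => (fun _ : ℕ × V × ℕ => false) (t, y, i) = false ∧
        ω.2 (t, y, i) = x).card := rfl
  rw [h, sum_pair (B.ne x)]
  simp only [true_and]

omit [MeasurableSpace V] [MeasurableSingletonClass V] [Countable V] in
theorem Local_sub (y : V) (c : Bool) : B.cone (B.inn y c) ⊆ B.cone y \ {y} := by
  intro z hz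
  refine ⟨B.cone_inn y c hz, ?_⟩
  rintro rfl
  exact B.not_mem z c hz

omit [MeasurableSpace V] [MeasurableSingletonClass V] [Countable V] in
theorem Local_Adep (t : ℕ) (h : ∀ y, Dep (B.cone y) (B.cone y \ {y}) (Cs B t y)) (y : V) :
    Dep (B.cone y \ {y}) (B.cone y \ {y}) (LocalA B t y) := by
  intro ω ω' h1 h2
  rw [Local_A, Local_A]
  have key : ∀ c, ((range (Cs B t (B.inn y c) ω)).filter fun i => ω.2 (t, B.inn y c, i) = y).card =
      ((range (Cs B t (B.inn y c) ω')).filter fun i => ω'.2 (t, B.inn y c, i) = y).card := by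
    intro c
    have h3 : Cs B t (B.inn y c) ω = Cs B t (B.inn y c) ω' :=
      h (B.inn y c) ω ω' (fun z hz => h1 z (Local_sub B y c hz))
        (fun z hz => h2 z (Local_sub B y c hz.1))
    rw [h3]
    congr 1
    refine filter_congr fun i _ => ?_
    rw [h2 (B.inn y c) (Local_sub B y c (B.self_mem _)) t i]
  rw [key false, key true]

omit [MeasurableSpace V] [MeasurableSingletonClass V] [Countable V] in
theorem Local_dep (t : ℕ) : (∀ y, Dep (B.cone y) (B.cone y \ {y}) (Cs B t y)) ∧
    (∀ y, Dep (B.cone y) (B.cone y \ {y}) (LocalF B t y)) := by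
  induction t with
  | zero =>
    constructor
    · intro y ω ω' h1 _
      show (if ω.1 y then 1 else 0) = (if ω'.1 y then 1 else 0)
      rw [h1 y (B.self_mem y)]
    · intro y ω ω' h1 _
      show (if ω.1 y then 0 else 1) = (if ω'.1 y then 0 else 1)
      rw [h1 y (B.self_mem y)]
  | succ t ih =>
    have hA : ∀ y, Dep (B.cone y) (B.cone y \ {y}) (LocalA B t y) := fun y =>
      Local_mono (Local_Adep B t ih.1 y) Set.sdiff_subset (le_refl _)
    constructor
    · intro y ω ω' h1 h2
      show LocalA B t y ω - LocalF B t y ω = LocalA B t y ω' - LocalF B t y ω'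
      rw [hA y ω ω' h1 h2, ih.2 y ω ω' h1 h2]
    · intro y ω ω' h1 h2
      show LocalF B t y ω - LocalA B t y ω = LocalF B t y ω' - LocalA B t y ω'
      rw [hA y ω ω' h1 h2, ih.2 y ω ω' h1 h2]

omit [MeasurableSpace V] [MeasurableSingletonClass V] [Countable V] in
theorem Cs_dep (t : ℕ) (y : V) : Dep (B.cone y) (B.cone y \ {y}) (Cs B t y) :=
  (Local_dep B t).1 y

omit [MeasurableSpace V] [MeasurableSingletonClass V] [Countable V] in
theorem N_dep (T : ℕ) (y x : V) : Dep (B.cone y) (B.cone y) (N B T y x) := by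
  intro ω ω' h1 h2
  unfold N
  refine sum_congr rfl fun t _ => ?_
  rw [Cs_dep B t y ω ω' h1 (fun z hz => h2 z hz.1)]
  congr 1
  refine filter_congr fun i _ => ?_
  rw [h2 y (B.self_mem y) t i]

omit [MeasurableSpace V] [MeasurableSingletonClass V] [Countable V] in
theorem R_dep (T : ℕ) (x : V) : Dep (B.cone x \ {x}) (B.cone x \ {x}) (R B T x) := by
  intro ω ω' h1 h2
  unfold R
  have key : ∀ c, N B T (B.inn x c) x ω = N B T (B.inn x c) x ω' := fun c =>
    N_dep B T (B.inn x c) x ω ω' (fun z hz => h1 z (Local_sub B x c hz))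
      (fun z hz => h2 z (Local_sub B x c hz))
  rw [key false, key true]

omit [MeasurableSpace V] [MeasurableSingletonClass V] [Countable V] in
theorem Local_R (T : ℕ) (x : V) (ω : Om0 V) :
    R B T x ω = ∑ t ∈ range (T + 1), LocalA B t x ω := by
  unfold R N
  rw [← sum_add_distrib]
  exact sum_congr rfl fun t _ => (Local_A B t x ω).symm

omit [MeasurableSpace V] [MeasurableSingletonClass V] [Countable V] in
theorem Local_bal (n : ℕ) (x : V) (ω : Om0 V) :
    LocalF B n x ω = f0 ω.1 x - ∑ t ∈ range n, LocalA B t x ω ∧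
    ∑ t ∈ range (n + 1), Cs B t x ω =
      c0 ω.1 x + (∑ t ∈ range n, LocalA B t x ω - f0 ω.1 x) := by
  induction n with
  | zero =>
    constructor
    · show f0 ω.1 x = _
      simp
    · simp only [zero_add, sum_range_one, range_zero, sum_empty, Nat.zero_sub, add_zero]
      rfl
  | succ n ih =>
    obtain ⟨h1, h2⟩ := ih
    have e1 : LocalF B (n + 1) x ω = LocalF B n x ω - LocalA B n x ω := rfl
    have e2 : Cs B (n + 1) x ω = LocalA B n x ω - LocalF B n x ω := rfl
    rw [sum_range_succ (fun t => LocalA B t x ω) n, sum_range_succ (fun t => Cs B t x ω) (n + 1),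
      h2, e1, e2, h1]
    constructor <;> omega

omit [MeasurableSpace V] [MeasurableSingletonClass V] [Countable V] in
theorem D_succ (T : ℕ) (x : V) (ω : Om0 V) :
    D B (T + 1) x ω = if ω.1 x then R B T x ω + 1 else R B T x ω - 1 := by
  unfold D
  rw [(Local_bal B (T + 1) x ω).2, ← Local_R]
  unfold c0 f0
  split_ifs <;> omega

omit [MeasurableSpace V] [MeasurableSingletonClass V] [Countable V] in
theorem D_zero (x : V) (ω : Om0 V) : D B 0 x ω = if ω.1 x then 1 else 0 := by
  unfold D
  rw [zero_add, sum_range_one]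
  rfl

omit [Countable V] in
theorem meas_Cs (t : ℕ) (x : V) : Measurable (Cs B t x) :=
  ((measurable_CF (inb B) t).1 x).comp measurable_emb

omit [Countable V] in
theorem meas_N (T : ℕ) (y x : V) : Measurable (N B T y x) := by
  unfold N
  refine Finset.measurable_fun_sum _ fun t _ => ?_
  have h := (measurable_card (Cn (inb B) t y) ((measurable_CF (inb B) t).1 y) t y x).comp
    (measurable_emb (V := V))
  have e : (fun ω : Om0 V => ((range (Cs B t y ω)).filter fun i => ω.2 (t, y, i) = x).card) =
      (fun ω : Om V => ((range (Cn (inb B) t y ω)).filter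
        fun i => ω.2.2 (t, y, i) = false ∧ ω.2.1 (t, y, i) = x).card) ∘ emb := by
    funext ω
    show _ = ((range (Cs B t y ω)).filter
        fun i => (fun _ : ℕ × V × ℕ => false) (t, y, i) = false ∧ ω.2 (t, y, i) = x).card
    simp only [true_and]
  rw [e]
  exact h

omit [MeasurableSpace V] [MeasurableSingletonClass V] [Countable V] in
theorem Local_bd (t : ℕ) : ∀ x, bd (inb B) t x ≤ 2 ^ t := by
  induction t with
  | zero => intro x; simp [bd]
  | succ t ih =>
    intro x
    have h1 : bd (inb B) (t + 1) x = bd (inb B) t (B.inn x false) + bd (inb B) t (B.inn x true) := by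
      show ∑ y ∈ ({B.inn x false, B.inn x true} : Finset V), bd (inb B) t y = _
      rw [sum_pair (B.ne x)]
    rw [h1, pow_succ]
    have h2 := ih (B.inn x false)
    have h3 := ih (B.inn x true)
    omega

omit [MeasurableSpace V] [MeasurableSingletonClass V] [Countable V] in
theorem D_le (T : ℕ) : ∃ b : ℕ, ∀ x ω, D B T x ω ≤ b := by
  refine ⟨∑ t ∈ range (T + 1), 2 ^ t, fun x ω => ?_⟩
  unfold D
  refine sum_le_sum fun t _ => ?_
  exact (cs_le_bd (inb B) ω.2 (fun _ => false) (c0 ω.1) (f0 ω.1) (c0_le ω.1) t x).trans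
    (Local_bd B t x)

omit [MeasurableSpace V] [MeasurableSingletonClass V] [Countable V] in
theorem N_le (T : ℕ) (y x : V) (ω : Om0 V) : N B T y x ω ≤ D B T y ω := by
  unfold N D
  refine sum_le_sum fun t _ => ?_
  exact (card_filter_le _ _).trans (by rw [card_range])

end B

end Pool.Agent.TH996.LL
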