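import Pool.Agent.TH996.LL.Rec
import Pool.Agent.TH996.LL.Analysis

/-!
The number of cars that leave a vertex grows at most logarithmically.
-/

namespace Pool.Agent.TH996.LL

open MeasureTheory Measure Finset Pool.Agent.TH996.Park

variable {V : Type*} [DecidableEq V] [MeasurableSpace V] [MeasurableSingletonClass V] [Countable V]

/-- The expected number of cars at `x` summed over the first times. -/
theorem cars_le {S : Tri V} (B : Bin S) {p : ℝ} (hp : 0 ≤ p) (hp2 : p < 1 / 2) (x : V) (T : ℕ) :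
    ∑ t ∈ range T, aT S p 0 x t ≤ 2 * Real.log ((1 - p) / (1 - 2 * p)) + 100 := by
  have hp' : 0 ≤ p ∧ p ≤ 1 := ⟨hp, by linarith⟩
  obtain ⟨hA, hB, hC, hE⟩ := rec_all B hp hp2 x
  have key := analysis p hp hp2 (fun T s => ∫ ω, s ^ (D B T x ω) ∂(S.law0 p))
    (fun T => ∫ ω, (D B T x ω : ℝ) ∂(S.law0 p)) (fun T => ∫ ω, (D B T x ω : ℝ) ^ 2 ∂(S.law0 p))
    (fun T s hs => integral_nonneg fun ω => pow_nonneg hs _)
    (fun T => integral_nonneg fun ω => Nat.cast_nonneg _) hA hB hC hE
  cases T with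
  | zero =>
    have := key 0
    have h2 : 0 ≤ ∫ ω, (D B 0 x ω : ℝ) ∂(S.law0 p) := integral_nonneg fun ω => Nat.cast_nonneg _
    simpa using h2.trans this
  | succ T =>
    have := key T
    rw [← mean_D B hp' T x]
    exact this

end Pool.Agent.TH996.LL
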