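import Pool.Agent.TH996.LL.Rec

/-!
The recursion inequalities in the other direction.
-/

namespace Pool.Agent.TH996.LL

open MeasureTheory Measure Finset Pool.Agent.TH996.Park

variable {V : Type*} [DecidableEq V] [MeasurableSpace V] [MeasurableSingletonClass V] [Countable V]

section B

variable {S : Tri V} (B : Bin S)

/-- exact evolution of the mean -/
lemma low_mean {p : ℝ} (hp : 0 ≤ p ∧ p ≤ 1) (T : ℕ) (x : V) :
    ∫ ω, (D B (T + 1) x ω : ℝ) ∂(S.law0 p) = (∫ ω, (D B T x ω : ℝ) ∂(S.law0 p)) + (2 * p - 1) +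
      (1 - p) * (∫ ω, ((1 : ℝ) / 2) ^ (D B T x ω) ∂(S.law0 p)) ^ 2 := by
  have hprob := law0_prob S hp
  have h0 := rec_pow B hp T x (le_refl (0 : ℝ)) zero_le_one
  rw [add_zero] at h0
  rw [← h0]
  have h1 := rec_step B hp T x (fun n => (n : ℝ))
  have h3 := rec_mean B hp T x
  have e1 : ∫ ω, ((R B T x ω + 1 : ℕ) : ℝ) ∂(S.law0 p) =
      (∫ ω, (R B T x ω : ℝ) ∂(S.law0 p)) + 1 := by
    have : ∀ ω, ((R B T x ω + 1 : ℕ) : ℝ) = (R B T x ω : ℝ) + 1 := fun ω => by push_cast; ring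
    simp_rw [this]
    rw [integral_add ((rec_bR B T x (fun n => (n : ℝ))).integrable _) (integrable_const _)]
    simp
  have e2 : ∫ ω, ((R B T x ω - 1 : ℕ) : ℝ) ∂(S.law0 p) =
      (∫ ω, (R B T x ω : ℝ) ∂(S.law0 p)) - 1 + ∫ ω, (0 : ℝ) ^ (R B T x ω) ∂(S.law0 p) := by
    have : ∀ ω, ((R B T x ω - 1 : ℕ) : ℝ) = ((R B T x ω : ℝ) - 1) + (0 : ℝ) ^ (R B T x ω) := by
      intro ω
      cases R B T x ω with
      | zero => simp
      | succ n => simp
    simp_rw [this]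
    rw [integral_add, integral_sub ((rec_bR B T x (fun n => (n : ℝ))).integrable _)
      (integrable_const _)]
    · simp
    · exact ((rec_bR B T x (fun n => (n : ℝ))).sub (BM.const 1)).integrable _
    · exact (rec_bR B T x (fun n => (0 : ℝ) ^ n)).integrable _
  rw [h1, e1, e2, h3]
  ring

lemma low_rec {p : ℝ} (hp : 0 ≤ p ∧ p ≤ 1) (T : ℕ) (x : V) {s : ℝ} (h0 : 0 ≤ s) (h1 : s ≤ 1) :
    s * (∫ ω, ((1 + s) / 2) ^ (D B T x ω) ∂(S.law0 p)) ^ 2 ≤
      ∫ ω, s ^ (D B (T + 1) x ω) ∂(S.law0 p) := by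
  have hprob := law0_prob S hp
  rw [← rec_pow B hp T x h0 h1, ← integral_const_mul]
  refine integral_mono (((rec_bR B T x (fun n => s ^ n)).smul s).integrable _)
    ((rec_bD B (T + 1) x (fun n => s ^ n)).integrable _) fun ω => ?_
  show s * s ^ (R B T x ω) ≤ s ^ (D B (T + 1) x ω)
  rw [← pow_succ']
  refine pow_le_pow_of_le_one h0 h1 ?_
  rw [D_succ]
  split_ifs <;> omega

lemma low_jensen {p : ℝ} (hp : 0 ≤ p ∧ p ≤ 1) (T : ℕ) (x : V) {u : ℝ} (h0 : 0 ≤ u) (h1 : u ≤ 1) :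
    1 - u * (∫ ω, (D B T x ω : ℝ) ∂(S.law0 p)) ≤ ∫ ω, (1 - u) ^ (D B T x ω) ∂(S.law0 p) := by
  have hprob := law0_prob S hp
  have i1 := rec_bD B T x (fun n => (n : ℝ))
  have e : 1 - u * (∫ ω, (D B T x ω : ℝ) ∂(S.law0 p)) =
      ∫ ω, (1 - u * (D B T x ω : ℝ)) ∂(S.law0 p) := by
    rw [integral_sub (integrable_const _) ((i1.smul u).integrable _), integral_const_mul]
    simp
  rw [e]
  refine integral_mono (((BM.const 1).sub (i1.smul u)).integrable _)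
    ((rec_bD B T x (fun n => (1 - u) ^ n)).integrable _) fun ω => ?_
  have := one_add_mul_le_pow (a := -u) (by linarith) (D B T x ω)
  show 1 - u * (D B T x ω : ℝ) ≤ (1 - u) ^ (D B T x ω)
  have e2 : (1 : ℝ) + -u = 1 - u := by ring
  rw [e2] at this
  linarith

end B

end Pool.Agent.TH996.LL
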