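import Pool.Agent.TH996.LL.Main
import Pool.Agent.TH996.LL.RecLow
import Pool.Agent.TH996.LL.AnUp
import Pool.Agent.TH996.LL.AnLow

/-!
Upper and lower bounds for the expected number of visits.
-/

namespace Pool.Agent.TH996.LL

open MeasureTheory Measure Finset Pool.Agent.TH996.Park Filter Topology

variable {V : Type*} [DecidableEq V] [MeasurableSpace V] [MeasurableSingletonClass V] [Countable V]

theorem summable_aT {S : Tri V} (B : Bin S) {p : ℝ} (hp : 0 ≤ p) (hp2 : p < 1 / 2) (x : V) :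
    Summable fun t : ℕ => aT S p 0 x t :=
  summable_of_sum_range_le (fun _ => aT_nonneg _ _ _) (cars_le B hp hp2 x)

theorem sharp_bin {S : Tri V} (B : Bin S) {p : ℝ} (hp : 0 ≤ p) (hp2 : p < 1 / 2) (x : V) :
    (∀ k : ℕ, ∑' t : ℕ, aT S p 0 x t ≤ Real.log ((1 - p) / (1 - 2 * p)) + k + 2 +
      (1 / 2) ^ (k + 1) * ((∑' t : ℕ, aT S p 0 x t) ^ 2 + 3 * (∑' t : ℕ, aT S p 0 x t) + 1)) ∧
    (∀ k : ℕ, ∑' t : ℕ, aT S p 0 x t ≤ 2 ^ k →
      Real.log ((1 - p) / (1 - 2 * p)) ≤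
        (∑' t : ℕ, aT S p 0 x t) + k + 1 + (1 / 2) ^ (k + 1) * (∑' t : ℕ, aT S p 0 x t) ^ 2) := by
  have hp' : 0 ≤ p ∧ p ≤ 1 := ⟨hp, by linarith⟩
  have hsum := summable_aT B hp hp2 x
  set v : ℝ := ∑' t : ℕ, aT S p 0 x t with hv
  have hv0 : 0 ≤ v := tsum_nonneg fun t => aT_nonneg _ _ _
  have hmT : Tendsto (fun T : ℕ => ∫ ω, (D B T x ω : ℝ) ∂(S.law0 p)) atTop (𝓝 v) := by
    have h1 := hsum.hasSum.tendsto_sum_nat
    have h2 := (tendsto_add_atTop_iff_nat 1).2 h1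
    refine h2.congr fun T => ?_
    rw [mean_D B hp' T x]
  have hle : ∀ T : ℕ, ∫ ω, (D B T x ω : ℝ) ∂(S.law0 p) ≤ v := fun T => by
    rw [mean_D B hp' T x]
    exact hsum.sum_le_tsum _ fun t _ => aT_nonneg _ _ _
  obtain ⟨hA, hB, hC, hE⟩ := rec_all B hp hp2 x
  constructor
  · intro k
    have key := fun T => analysis_up p hp hp2 (fun T s => ∫ ω, s ^ (D B T x ω) ∂(S.law0 p))
      (fun T => ∫ ω, (D B T x ω : ℝ) ∂(S.law0 p))
      (fun T => ∫ ω, (D B T x ω : ℝ) ^ 2 ∂(S.law0 p))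
      (fun T s hs => integral_nonneg fun ω => pow_nonneg hs _)
      (fun T => integral_nonneg fun ω => Nat.cast_nonneg _) hA hB hC hE T k
    exact le_of_tendsto_of_tendsto' hmT
      (tendsto_const_nhds.add ((((hmT.pow 2).add (hmT.const_mul 3)).add_const 1).const_mul _)) key
  · intro k hk
    refine analysis_low p hp hp2 (fun T s => ∫ ω, s ^ (D B T x ω) ∂(S.law0 p))
      (fun T => ∫ ω, (D B T x ω : ℝ) ∂(S.law0 p)) v hv0
      (fun T s hs => integral_nonneg fun ω => pow_nonneg hs _)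
      (fun T s h0 h1 => low_rec B hp' T x h0 h1) (fun T u h0 h1 => low_jensen B hp' T x h0 h1)
      hle ?_ k hk
    have h1 := (tendsto_add_atTop_iff_nat 1).2 hmT
    have h2 := ((h1.sub hmT).add_const (1 - 2 * p)).div_const (1 - p)
    rw [sub_self, zero_add] at h2
    refine h2.congr fun T => ?_
    have h3 := low_mean B hp' T x
    have h4 : (1 - p) ≠ 0 := by linarith
    rw [h3]
    field_simp
    ring

end Pool.Agent.TH996.LL
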