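import Pool.Agent.TH996.LL.Local

/-!
Thinning: given the departures from `y`, the steps from `y` to `x` are binomial (helper150).
-/

namespace Pool.Agent.TH996.LL

open MeasureTheory Measure Finset Pool.Agent.TH996.Park

variable {V : Type*} [DecidableEq V] [MeasurableSpace V] [MeasurableSingletonClass V] [Countable V]

section gen

/-- resampling a step from `y` -/
def thUpd (y : V) (a : ℕ × ℕ) (ω : Om0 V) (v : V) : Om0 V :=
  (ω.1, Function.update ω.2 (a.1, y, a.2) v)

omit [MeasurableSingletonClass V] [Countable V] in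
theorem thResamp (S : Tri V) {p : ℝ} (hp : 0 ≤ p ∧ p ≤ 1) (y : V) (a : ℕ × ℕ) :
    Resamp (S.law0 p) (stepLaw S.nb S.K y) (thUpd y a) := by
  have := bern_prob hp.1 hp.2
  unfold Tri.law0
  exact (Resamp.pi (fun a : ℕ × V × ℕ => stepLaw S.nb S.K a.2.1) (a.1, y, a.2)).right
    (infinitePi fun _ : V => bern p)

/-- indicator of a step to `x` -/
def thI (y x : V) (a : ℕ × ℕ) (ω : Om0 V) : ℝ := if ω.2 (a.1, y, a.2) = x then 1 else 0

omit [Countable V] in
theorem thI_bm (y x : V) (a : ℕ × ℕ) : BM (thI y x a) := by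
  refine ⟨?_, 1, fun ω => ?_⟩
  · have hm : Measurable (fun ω : Om0 V => ω.2 (a.1, y, a.2)) :=
      (measurable_pi_apply (a.1, y, a.2)).comp measurable_snd
    unfold thI
    exact Measurable.ite (hm (measurableSet_singleton x)) measurable_const measurable_const
  · unfold thI
    split_ifs <;> simp

theorem th_single (S : Tri V) {p : ℝ} (hp : 0 ≤ p ∧ p ≤ 1) {y x : V} (hx : x ∈ S.nb y)
    (hK : S.K y x = 1 / 2) (a : ℕ × ℕ) (W : Om0 V → ℝ) (hW : BM W)
    (hinv : ∀ ω v, W (thUpd y a ω v) = W ω) :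
    ∫ ω, W ω * thI y x a ω ∂(S.law0 p) = 1 / 2 * ∫ ω, W ω ∂(S.law0 p) := by
  have := law0_prob S hp
  rw [(thResamp S hp y a).integral_mul hW (thI_bm y x a) (fun v => if v = x then 1 else 0) hinv
    (by intro ω v; simp [thI, thUpd])]
  rw [S.integral_stepLaw y]
  simp only [mul_ite, mul_one, mul_zero]
  rw [Finset.sum_ite_eq' (S.nb y) x (fun z => S.K y z), if_pos hx, hK]
  ring

/-- the weight -/
def thw (C : ℕ → Om0 V → ℕ) (a : ℕ × ℕ) (ω : Om0 V) : ℝ := if a.2 < C a.1 ω then 1 else 0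

omit [DecidableEq V] [MeasurableSingletonClass V] [Countable V] in
theorem thw_bm {C : ℕ → Om0 V → ℕ} (hC : ∀ t, Measurable (C t)) (a : ℕ × ℕ) : BM (thw C a) := by
  refine ⟨?_, 1, fun ω => ?_⟩
  · unfold thw
    refine Measurable.ite ?_ measurable_const measurable_const
    exact measurableSet_lt measurable_const (hC a.1)
  · unfold thw
    split_ifs <;> simp

omit [MeasurableSpace V] [MeasurableSingletonClass V] [Countable V] in
theorem thw_inv {y : V} {C : ℕ → Om0 V → ℕ} (hinv : ∀ t a ω v, C t (thUpd y a ω v) = C t ω)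
    (b a : ℕ × ℕ) (ω : Om0 V) (v : V) : thw C b (thUpd y a ω v) = thw C b ω := by
  unfold thw
  rw [hinv]

omit [MeasurableSpace V] [MeasurableSingletonClass V] [Countable V] in
theorem thI_inv {y x : V} {a b : ℕ × ℕ} (hab : b ≠ a) (ω : Om0 V) (v : V) :
    thI y x b (thUpd y a ω v) = thI y x b ω := by
  unfold thI thUpd
  have h : ((b.1, y, b.2) : ℕ × V × ℕ) ≠ (a.1, y, a.2) := by
    intro h
    apply hab
    simp only [Prod.mk.injEq] at h
    exact Prod.ext h.1 h.2.2
  simp only [Function.update_of_ne h]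

omit [DecidableEq V] [MeasurableSingletonClass V] [Countable V] in
theorem bm_prod {A : Finset (ℕ × ℕ)} {F : ℕ × ℕ → Om0 V → ℝ} (h : ∀ a, BM (F a)) :
    BM (fun ω => ∏ a ∈ A, F a ω) := by
  classical
  induction A using Finset.induction_on with
  | empty => simpa using BM.const (Ω := Om0 V) 1
  | insert a s ha ih =>
    simp only [Finset.prod_insert ha]
    exact (h a).mul ih

theorem th_prod (S : Tri V) {p : ℝ} (hp : 0 ≤ p ∧ p ≤ 1) {y x : V} (hx : x ∈ S.nb y)
    (hK : S.K y x = 1 / 2) {C : ℕ → Om0 V → ℕ} (hC : ∀ t, Measurable (C t))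
    (hinv : ∀ t a ω v, C t (thUpd y a ω v) = C t ω) (c : ℝ) (A : Finset (ℕ × ℕ)) :
    ∀ (W : Om0 V → ℝ), BM W → (∀ a ω v, W (thUpd y a ω v) = W ω) →
    ∫ ω, W ω * ∏ a ∈ A, (1 + c * (thw C a ω * thI y x a ω)) ∂(S.law0 p) =
      ∫ ω, W ω * ∏ a ∈ A, (1 + c / 2 * thw C a ω) ∂(S.law0 p) := by
  have := law0_prob S hp
  have hbm1 : ∀ a, BM (fun ω => 1 + c * (thw C a ω * thI y x a ω)) := fun a =>
    (BM.const 1).add (((thw_bm hC a).mul (thI_bm y x a)).smul c)
  have hbm2 : ∀ a, BM (fun ω => 1 + c / 2 * thw C a ω) := fun a =>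
    (BM.const 1).add ((thw_bm hC a).smul (c / 2))
  induction A using Finset.induction_on with
  | empty => intro W _ _; simp
  | insert a A ha ih =>
    intro W hW hWi
    simp only [Finset.prod_insert ha]
    have hWw : BM (fun ω => W ω * thw C a ω) := hW.mul (thw_bm hC a)
    have e1 : ∀ ω, W ω * ((1 + c * (thw C a ω * thI y x a ω)) *
        ∏ b ∈ A, (1 + c * (thw C b ω * thI y x b ω))) =
        W ω * ∏ b ∈ A, (1 + c * (thw C b ω * thI y x b ω)) +
        c * ((W ω * thw C a ω * ∏ b ∈ A, (1 + c * (thw C b ω * thI y x b ω))) *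
          thI y x a ω) := by
      intro ω; ring
    have e2 : ∀ ω, W ω * ((1 + c / 2 * thw C a ω) * ∏ b ∈ A, (1 + c / 2 * thw C b ω)) =
        W ω * ∏ b ∈ A, (1 + c / 2 * thw C b ω) +
        c / 2 * (W ω * thw C a ω * ∏ b ∈ A, (1 + c / 2 * thw C b ω)) := by
      intro ω; ring
    simp only [e1, e2]
    have hp1 : BM (fun ω => ∏ b ∈ A, (1 + c * (thw C b ω * thI y x b ω))) := bm_prod hbm1
    have hp2 : BM (fun ω => ∏ b ∈ A, (1 + c / 2 * thw C b ω)) := bm_prod hbm2
    rw [integral_add ((hW.mul hp1).integrable _)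
      ((((hWw.mul hp1).mul (thI_bm y x a)).smul c).integrable _),
      integral_add ((hW.mul hp2).integrable _) (((hWw.mul hp2).smul (c / 2)).integrable _),
      integral_const_mul, integral_const_mul, ih W hW hWi]
    rw [th_single S hp hx hK a
      (fun ω => W ω * thw C a ω * ∏ b ∈ A, (1 + c * (thw C b ω * thI y x b ω))) (hWw.mul hp1)
      (by
        intro ω v
        simp only [hWi, thw_inv hinv]
        congr 1
        refine Finset.prod_congr rfl fun b hb => ?_
        have hne : b ≠ a := by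
          rintro rfl
          exact ha hb
        rw [thI_inv hne])]
    rw [ih (fun ω => W ω * thw C a ω) hWw (by
      intro b ω v
      simp only [hWi, thw_inv hinv])]
    ring

theorem th_two (S : Tri V) {p : ℝ} (hp : 0 ≤ p ∧ p ≤ 1) {y x : V} (hx : x ∈ S.nb y)
    (hK : S.K y x = 1 / 2) {C : ℕ → Om0 V → ℕ} (hC : ∀ t, Measurable (C t))
    (hinv : ∀ t a ω v, C t (thUpd y a ω v) = C t ω) (a b : ℕ × ℕ) :
    ∫ ω, (thw C a ω * thI y x a ω) * (thw C b ω * thI y x b ω) ∂(S.law0 p) =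
      1 / 4 * ∫ ω, thw C a ω * thw C b ω ∂(S.law0 p) +
        if a = b then 1 / 4 * ∫ ω, thw C a ω ∂(S.law0 p) else 0 := by
  have := law0_prob S hp
  by_cases hab : a = b
  · subst hab
    rw [if_pos rfl]
    have e1 : ∀ ω, (thw C a ω * thI y x a ω) * (thw C a ω * thI y x a ω) =
        thw C a ω * thI y x a ω := by
      intro ω
      unfold thw thI
      split_ifs <;> simp
    have e2 : ∀ ω, thw C a ω * thw C a ω = thw C a ω := by
      intro ω
      unfold thw
      split_ifs <;> simp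
    simp only [e1, e2]
    rw [th_single S hp hx hK a _ (thw_bm hC a) (fun ω v => thw_inv hinv a a ω v)]
    ring
  · rw [if_neg hab, add_zero]
    have e1 : ∀ ω, (thw C a ω * thI y x a ω) * (thw C b ω * thI y x b ω) =
        (thw C a ω * thw C b ω * thI y x b ω) * thI y x a ω := by
      intro ω; ring
    simp only [e1]
    rw [th_single S hp hx hK a _ (((thw_bm hC a).mul (thw_bm hC b)).mul (thI_bm y x b))
      (by
        intro ω v
        simp only [thw_inv hinv, thI_inv (x := x) (Ne.symm hab)])]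
    rw [th_single S hp hx hK b _ ((thw_bm hC a).mul (thw_bm hC b))
      (by
        intro ω v
        simp only [thw_inv hinv])]
    ring

end gen

section B

variable {S : Tri V} (B : Bin S)

omit [MeasurableSpace V] [MeasurableSingletonClass V] [Countable V] in
theorem th_N {T b : ℕ} {y x : V} (h : ∀ t ω, t ∈ range (T + 1) → Cs B t y ω ≤ b) (ω : Om0 V) :
    N B T y x ω = ∑ a ∈ range (T + 1) ×ˢ range b,
      if a.2 < Cs B a.1 y ω ∧ ω.2 (a.1, y, a.2) = x then 1 else 0 := by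
  rw [Finset.sum_product]
  unfold N
  refine Finset.sum_congr rfl fun t ht => ?_
  rw [← Finset.card_filter]
  congr 1
  ext i
  simp only [Finset.mem_filter, Finset.mem_range]
  constructor
  · rintro ⟨h1, h2⟩
    exact ⟨lt_of_lt_of_le h1 (h t ω ht), h1, h2⟩
  · rintro ⟨_, h1, h2⟩
    exact ⟨h1, h2⟩

omit [MeasurableSpace V] [MeasurableSingletonClass V] [Countable V] in
theorem th_D {T b : ℕ} {y : V} (h : ∀ t ω, t ∈ range (T + 1) → Cs B t y ω ≤ b) (ω : Om0 V) :
    D B T y ω = ∑ a ∈ range (T + 1) ×ˢ range b, if a.2 < Cs B a.1 y ω then 1 else 0 := by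
  rw [Finset.sum_product]
  unfold D
  refine Finset.sum_congr rfl fun t ht => ?_
  rw [← Finset.card_filter]
  have : (range b).filter (fun i => i < Cs B t y ω) = range (Cs B t y ω) := by
    ext i
    simp only [Finset.mem_filter, Finset.mem_range]
    exact ⟨fun h1 => h1.2, fun h1 => ⟨lt_of_lt_of_le h1 (h t ω ht), h1⟩⟩
  rw [this, Finset.card_range]

omit [MeasurableSpace V] [MeasurableSingletonClass V] [Countable V] in
theorem th_bound (T : ℕ) (y : V) : ∃ b : ℕ, ∀ t ω, t ∈ range (T + 1) → Cs B t y ω ≤ b := by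
  obtain ⟨b, hb⟩ := D_le B T
  refine ⟨b, fun t ω ht => le_trans ?_ (hb y ω)⟩
  exact Finset.single_le_sum (f := fun t => Cs B t y ω) (fun _ _ => Nat.zero_le _) ht

omit [MeasurableSpace V] [MeasurableSingletonClass V] [Countable V] in
theorem th_inv (y : V) (t : ℕ) (a : ℕ × ℕ) (ω : Om0 V) (v : V) :
    Cs B t y (thUpd y a ω v) = Cs B t y ω := by
  refine Cs_dep B t y _ _ (fun z _ => rfl) (fun z hz t' i => ?_)
  have hzy : z ≠ y := hz.2
  unfold thUpd
  have h : ((t', z, i) : ℕ × V × ℕ) ≠ (a.1, y, a.2) := by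
    intro h
    simp only [Prod.mk.injEq] at h
    exact hzy h.2.1
  simp only [Function.update_of_ne h]

omit [MeasurableSpace V] [MeasurableSingletonClass V] [Countable V] in
theorem th_castN {T b : ℕ} {y x : V} (h : ∀ t ω, t ∈ range (T + 1) → Cs B t y ω ≤ b)
    (ω : Om0 V) : (N B T y x ω : ℝ) = ∑ a ∈ range (T + 1) ×ˢ range b,
      thw (fun t => Cs B t y) a ω * thI y x a ω := by
  rw [th_N B h ω, Nat.cast_sum]
  refine Finset.sum_congr rfl fun a _ => ?_
  unfold thw thI
  by_cases h1 : a.2 < Cs B a.1 y ω <;> by_cases h2 : ω.2 (a.1, y, a.2) = x <;> simp [h1, h2]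

omit [MeasurableSpace V] [MeasurableSingletonClass V] [Countable V] in
theorem th_castD {T b : ℕ} {y : V} (h : ∀ t ω, t ∈ range (T + 1) → Cs B t y ω ≤ b)
    (ω : Om0 V) : (D B T y ω : ℝ) = ∑ a ∈ range (T + 1) ×ˢ range b,
      thw (fun t => Cs B t y) a ω := by
  rw [th_D B h ω, Nat.cast_sum]
  refine Finset.sum_congr rfl fun a _ => ?_
  unfold thw
  split_ifs <;> simp

omit [MeasurableSpace V] [MeasurableSingletonClass V] [Countable V] in
theorem th_powN {T b : ℕ} {y x : V} (h : ∀ t ω, t ∈ range (T + 1) → Cs B t y ω ≤ b)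
    (s : ℝ) (ω : Om0 V) : s ^ (N B T y x ω) = ∏ a ∈ range (T + 1) ×ˢ range b,
      (1 + (s - 1) * (thw (fun t => Cs B t y) a ω * thI y x a ω)) := by
  rw [th_N B h ω, ← Finset.prod_pow_eq_pow_sum]
  refine Finset.prod_congr rfl fun a _ => ?_
  unfold thw thI
  by_cases h1 : a.2 < Cs B a.1 y ω <;> by_cases h2 : ω.2 (a.1, y, a.2) = x <;> simp [h1, h2]

omit [MeasurableSpace V] [MeasurableSingletonClass V] [Countable V] in
theorem th_powD {T b : ℕ} {y : V} (h : ∀ t ω, t ∈ range (T + 1) → Cs B t y ω ≤ b)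
    (s : ℝ) (ω : Om0 V) : ((1 + s) / 2) ^ (D B T y ω) = ∏ a ∈ range (T + 1) ×ˢ range b,
      (1 + (s - 1) / 2 * thw (fun t => Cs B t y) a ω) := by
  rw [th_D B h ω, ← Finset.prod_pow_eq_pow_sum]
  refine Finset.prod_congr rfl fun a _ => ?_
  unfold thw
  by_cases h1 : a.2 < Cs B a.1 y ω
  · simp only [h1, if_true, pow_one]; ring
  · simp [h1]

theorem thin_pow {p : ℝ} (hp : 0 ≤ p ∧ p ≤ 1) (T : ℕ) (x : V) (c : Bool) {s : ℝ} (h0 : 0 ≤ s)
    (h1 : s ≤ 1) :
    ∫ ω, s ^ (N B T (B.inn x c) x ω) ∂(S.law0 p) =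
      ∫ ω, ((1 + s) / 2) ^ (D B T (B.inn x c) ω) ∂(S.law0 p) := by
  obtain ⟨b, hb⟩ := th_bound B T (B.inn x c)
  simp only [th_powN B hb s, th_powD B hb s]
  have := th_prod S hp (S.symm _ _ (B.mem x c)) (B.ker x c)
    (C := fun t => Cs B t (B.inn x c)) (fun t => meas_Cs B t _)
    (fun t a ω v => th_inv B (B.inn x c) t a ω v) (s - 1) (range (T + 1) ×ˢ range b)
    (fun _ => 1) (BM.const 1) (fun _ _ _ => rfl)
  simpa only [one_mul] using this

theorem thin_one {p : ℝ} (hp : 0 ≤ p ∧ p ≤ 1) (T : ℕ) (x : V) (c : Bool) :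
    ∫ ω, (N B T (B.inn x c) x ω : ℝ) ∂(S.law0 p) =
      1 / 2 * ∫ ω, (D B T (B.inn x c) ω : ℝ) ∂(S.law0 p) := by
  have := law0_prob S hp
  obtain ⟨b, hb⟩ := th_bound B T (B.inn x c)
  simp only [th_castN B hb, th_castD B hb]
  have hC : ∀ t, Measurable (Cs B t (B.inn x c)) := fun t => meas_Cs B t _
  rw [integral_finsetSum _ fun a _ => ((thw_bm hC a).mul (thI_bm _ _ a)).integrable _,
    integral_finsetSum _ fun a _ => (thw_bm hC a).integrable _, Finset.mul_sum]
  refine Finset.sum_congr rfl fun a _ => ?_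
  exact th_single S hp (S.symm _ _ (B.mem x c)) (B.ker x c) a _ (thw_bm hC a)
    (fun ω v => thw_inv (fun t a ω v => th_inv B (B.inn x c) t a ω v) a a ω v)

theorem thin_two {p : ℝ} (hp : 0 ≤ p ∧ p ≤ 1) (T : ℕ) (x : V) (c : Bool) :
    ∫ ω, (N B T (B.inn x c) x ω : ℝ) ^ 2 ∂(S.law0 p) =
      1 / 4 * (∫ ω, (D B T (B.inn x c) ω : ℝ) ^ 2 ∂(S.law0 p)) +
      1 / 4 * ∫ ω, (D B T (B.inn x c) ω : ℝ) ∂(S.law0 p) := by
  have := law0_prob S hp
  obtain ⟨b, hb⟩ := th_bound B T (B.inn x c)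
  simp only [th_castN B hb, th_castD B hb]
  have hC : ∀ t, Measurable (Cs B t (B.inn x c)) := fun t => meas_Cs B t _
  simp only [sq, Finset.sum_mul_sum]
  rw [integral_finsetSum _ fun a _ => (BM.sum _ fun b _ =>
      ((thw_bm hC a).mul (thI_bm _ _ a)).mul ((thw_bm hC b).mul (thI_bm _ _ b))).integrable _,
    integral_finsetSum _ fun a _ => (BM.sum _ fun b _ =>
      (thw_bm hC a).mul (thw_bm hC b)).integrable _,
    integral_finsetSum _ fun a _ => (thw_bm hC a).integrable _, Finset.mul_sum, Finset.mul_sum,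
    ← Finset.sum_add_distrib]
  refine Finset.sum_congr rfl fun a ha => ?_
  rw [integral_finsetSum _ fun b _ =>
      (((thw_bm hC a).mul (thI_bm _ _ a)).mul ((thw_bm hC b).mul (thI_bm _ _ b))).integrable _,
    integral_finsetSum _ fun b _ => ((thw_bm hC a).mul (thw_bm hC b)).integrable _]
  have key : ∀ d ∈ range (T + 1) ×ˢ range b,
      ∫ ω, (thw (fun t => Cs B t (B.inn x c)) a ω * thI (B.inn x c) x a ω) *
        (thw (fun t => Cs B t (B.inn x c)) d ω * thI (B.inn x c) x d ω) ∂(S.law0 p) = _ :=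
    fun d _ => th_two S hp (S.symm _ _ (B.mem x c)) (B.ker x c) hC
      (fun t a ω v => th_inv B (B.inn x c) t a ω v) a d
  rw [Finset.sum_congr rfl key, Finset.sum_add_distrib, ← Finset.mul_sum,
    Finset.sum_ite_eq _ a (fun _ => 1 / 4 *
      ∫ ω, thw (fun t => Cs B t (B.inn x c)) a ω ∂(S.law0 p)), if_pos ha]

end B

end Pool.Agent.TH996.LL
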