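import Pool.Agent.TH996.LL.Local
import Pool.Agent.TH996.LL.Indep
import Pool.Agent.TH996.LL.Thin
import Pool.Agent.TH996.LL.Link2

/-!
The recursion inequalities for the departures on graphs whose backward cones are binary trees.
-/

namespace Pool.Agent.TH996.LL

open MeasureTheory Measure Finset Pool.Agent.TH996.Park

variable {V : Type*} [DecidableEq V] [MeasurableSpace V] [MeasurableSingletonClass V] [Countable V]

section B

variable {S : Tri V} (B : Bin S)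

omit [DecidableEq V] [MeasurableSingletonClass V] [Countable V] in
lemma rec_bm {X : Om0 V → ℕ} (hX : Measurable X) {b : ℕ} (hb : ∀ ω, X ω ≤ b) (φ : ℕ → ℝ) :
    BM (fun ω => φ (X ω)) := by
  refine ⟨(measurable_of_countable φ).comp hX, ∑ i ∈ range (b + 1), |φ i|, fun ω => ?_⟩
  exact Finset.single_le_sum (f := fun i => |φ i|) (fun _ _ => abs_nonneg _)
    (mem_range.2 (Nat.lt_succ_of_le (hb ω)))

omit [Countable V] in
lemma rec_measD (T : ℕ) (x : V) : Measurable (D B T x) := by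
  unfold D
  exact Finset.measurable_sum _ fun t _ => meas_Cs B t x

omit [Countable V] in
lemma rec_measR (T : ℕ) (x : V) : Measurable (R B T x) :=
  (meas_N B T _ x).add (meas_N B T _ x)

omit [MeasurableSpace V] [MeasurableSingletonClass V] [Countable V] in
lemma rec_R_le (T : ℕ) : ∃ b : ℕ, ∀ x ω, R B T x ω ≤ b := by
  obtain ⟨b, hb⟩ := D_le B T
  exact ⟨b + b, fun x ω => Nat.add_le_add ((N_le B T _ x ω).trans (hb _ ω))
    ((N_le B T _ x ω).trans (hb _ ω))⟩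

omit [Countable V] in
lemma rec_bD (T : ℕ) (x : V) (φ : ℕ → ℝ) : BM (fun ω => φ (D B T x ω)) := by
  obtain ⟨b, hb⟩ := D_le B T
  exact rec_bm (rec_measD B T x) (hb x) φ

omit [Countable V] in
lemma rec_bR (T : ℕ) (x : V) (φ : ℕ → ℝ) : BM (fun ω => φ (R B T x ω)) := by
  obtain ⟨b, hb⟩ := rec_R_le B T
  exact rec_bm (rec_measR B T x) (hb x) φ

omit [Countable V] in
lemma rec_bN (T : ℕ) (y x : V) (φ : ℕ → ℝ) : BM (fun ω => φ (N B T y x ω)) := by
  obtain ⟨b, hb⟩ := D_le B T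
  exact rec_bm (meas_N B T y x) (fun ω => (N_le B T y x ω).trans (hb y ω)) φ

/-- the two numbers of arrivals are independent -/
lemma rec_ind {p : ℝ} (hp : 0 ≤ p ∧ p ≤ 1) (T : ℕ) (x : V) (φ ψ : ℕ → ℝ) :
    ∫ ω, φ (N B T (B.inn x false) x ω) * ψ (N B T (B.inn x true) x ω) ∂(S.law0 p) =
      (∫ ω, φ (N B T (B.inn x false) x ω) ∂(S.law0 p)) *
        ∫ ω, ψ (N B T (B.inn x true) x ω) ∂(S.law0 p) :=
  indep S hp (B.disj x) (B.disj x) (rec_bN B T _ x φ) (rec_bN B T _ x ψ)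
    (fun ω ω' h h' => by
      show φ (N B T (B.inn x false) x ω) = φ (N B T (B.inn x false) x ω')
      rw [N_dep B T (B.inn x false) x ω ω' h h'])
    (fun ω ω' h h' => by
      show ψ (N B T (B.inn x true) x ω) = ψ (N B T (B.inn x true) x ω')
      rw [N_dep B T (B.inn x true) x ω ω' h h'])

omit [MeasurableSingletonClass V] [Countable V] in
lemma rec_coin (S : Tri V) {p : ℝ} (hp : 0 ≤ p ∧ p ≤ 1) (x : V) (g : Bool → ℝ) :
    ∫ ω : Om0 V, g (ω.1 x) ∂(S.law0 p) = p * g true + (1 - p) * g false := by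
  have := bern_prob hp.1 hp.2
  have h1 : MeasurePreserving (fun ω : Om0 V => ω.1 x) (S.law0 p) (bern p) := by
    unfold Tri.law0
    exact (measurePreserving_eval_infinitePi (fun _ : V => bern p) x).comp measurePreserving_fst
  rw [← integral_bern hp.1 hp.2 g, ← h1.map_eq,
    integral_map h1.measurable.aemeasurable (measurable_of_countable g).aestronglyMeasurable]

omit [DecidableEq V] [MeasurableSingletonClass V] [Countable V] in
lemma rec_bcoin (x : V) (g : Bool → ℝ) : BM (fun ω : Om0 V => g (ω.1 x)) := by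
  refine ⟨(measurable_of_countable g).comp ((measurable_pi_apply x).comp measurable_fst),
    |g true| + |g false|, fun ω => ?_⟩
  cases ω.1 x
  · exact le_add_of_nonneg_left (abs_nonneg _)
  · exact le_add_of_nonneg_right (abs_nonneg _)

/-- the step of the recursion -/
lemma rec_step {p : ℝ} (hp : 0 ≤ p ∧ p ≤ 1) (T : ℕ) (x : V) (φ : ℕ → ℝ) :
    ∫ ω, φ (D B (T + 1) x ω) ∂(S.law0 p) =
      p * (∫ ω, φ (R B T x ω + 1) ∂(S.law0 p)) +
        (1 - p) * ∫ ω, φ (R B T x ω - 1) ∂(S.law0 p) := by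
  have hprob := law0_prob S hp
  have key : ∀ (g : Bool → ℝ) (ψ : ℕ → ℝ), ∫ ω, g (ω.1 x) * ψ (R B T x ω) ∂(S.law0 p) =
      (p * g true + (1 - p) * g false) * ∫ ω, ψ (R B T x ω) ∂(S.law0 p) := by
    intro g ψ
    rw [← rec_coin S hp x g]
    refine indep S hp (J1 := {x}) (J1' := ∅) (J2 := B.cone x \ {x}) (J2' := B.cone x \ {x})
      Set.disjoint_sdiff_right (Set.empty_disjoint _) (rec_bcoin x g) (rec_bR B T x ψ)
      (fun ω ω' h _ => ?_) (fun ω ω' h h' => ?_)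
    · show g (ω.1 x) = g (ω'.1 x)
      rw [h x rfl]
    · show ψ (R B T x ω) = ψ (R B T x ω')
      rw [R_dep B T x ω ω' h h']
  obtain ⟨g1, hg1⟩ : ∃ g : Bool → ℝ, g = fun b => if b then 1 else 0 := ⟨_, rfl⟩
  obtain ⟨g2, hg2⟩ : ∃ g : Bool → ℝ, g = fun b => if b then 0 else 1 := ⟨_, rfl⟩
  obtain ⟨ψ1, hψ1⟩ : ∃ ψ : ℕ → ℝ, ψ = fun n => φ (n + 1) := ⟨_, rfl⟩
  obtain ⟨ψ2, hψ2⟩ : ∃ ψ : ℕ → ℝ, ψ = fun n => φ (n - 1) := ⟨_, rfl⟩
  have h1 : (fun ω : Om0 V => φ (D B (T + 1) x ω)) = fun ω =>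
      g1 (ω.1 x) * ψ1 (R B T x ω) + g2 (ω.1 x) * ψ2 (R B T x ω) := by
    funext ω
    rw [D_succ B T x ω, hg1, hg2, hψ1, hψ2]
    cases ω.1 x <;> simp
  rw [h1, integral_add
    (((rec_bcoin x g1).mul (rec_bR B T x ψ1)).integrable _)
    (((rec_bcoin x g2).mul (rec_bR B T x ψ2)).integrable _), key, key, hg1, hg2, hψ1, hψ2]
  simp

/-- powers of the number of arrivals -/
lemma rec_pow {p : ℝ} (hp : 0 ≤ p ∧ p ≤ 1) (T : ℕ) (x : V) {s : ℝ} (h0 : 0 ≤ s) (h1 : s ≤ 1) :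
    ∫ ω, s ^ (R B T x ω) ∂(S.law0 p) = (∫ ω, ((1 + s) / 2) ^ (D B T x ω) ∂(S.law0 p)) ^ 2 := by
  have e1 : ∀ ω, s ^ (R B T x ω) =
      s ^ (N B T (B.inn x false) x ω) * s ^ (N B T (B.inn x true) x ω) := fun ω => by
    rw [← pow_add]
    rfl
  simp_rw [e1]
  rw [rec_ind B hp T x (fun n => s ^ n) (fun n => s ^ n), thin_pow B hp T x false h0 h1,
    thin_pow B hp T x true h0 h1,
    D_inv B hp T (B.inn x false) x (fun n => ((1 + s) / 2) ^ n),
    D_inv B hp T (B.inn x true) x (fun n => ((1 + s) / 2) ^ n), sq]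

/-- the mean number of arrivals -/
lemma rec_mean {p : ℝ} (hp : 0 ≤ p ∧ p ≤ 1) (T : ℕ) (x : V) :
    ∫ ω, (R B T x ω : ℝ) ∂(S.law0 p) = ∫ ω, (D B T x ω : ℝ) ∂(S.law0 p) := by
  have hprob := law0_prob S hp
  have e1 : ∀ ω, (R B T x ω : ℝ) =
      (N B T (B.inn x false) x ω : ℝ) + (N B T (B.inn x true) x ω : ℝ) := fun ω => by
    rw [← Nat.cast_add]
    rfl
  simp_rw [e1]
  rw [integral_add ((rec_bN B T _ x (fun n => (n : ℝ))).integrable _)
    ((rec_bN B T _ x (fun n => (n : ℝ))).integrable _), thin_one B hp T x false,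
    thin_one B hp T x true, D_inv B hp T (B.inn x false) x (fun n => (n : ℝ)),
    D_inv B hp T (B.inn x true) x (fun n => (n : ℝ))]
  ring

/-- the second moment of the number of arrivals -/
lemma rec_mom {p : ℝ} (hp : 0 ≤ p ∧ p ≤ 1) (T : ℕ) (x : V) :
    ∫ ω, (R B T x ω : ℝ) ^ 2 ∂(S.law0 p) =
      1 / 2 * (∫ ω, (D B T x ω : ℝ) ^ 2 ∂(S.law0 p)) +
        1 / 2 * (∫ ω, (D B T x ω : ℝ) ∂(S.law0 p)) +
          1 / 2 * (∫ ω, (D B T x ω : ℝ) ∂(S.law0 p)) ^ 2 := by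
  have hprob := law0_prob S hp
  have e1 : ∀ ω, (R B T x ω : ℝ) ^ 2 =
      (N B T (B.inn x false) x ω : ℝ) ^ 2 + (N B T (B.inn x true) x ω : ℝ) ^ 2 +
        2 * ((N B T (B.inn x false) x ω : ℝ) * (N B T (B.inn x true) x ω : ℝ)) := fun ω => by
    unfold R
    push_cast
    ring
  simp_rw [e1]
  rw [integral_add (((rec_bN B T _ x (fun n => (n : ℝ) ^ 2)).add
      (rec_bN B T _ x (fun n => (n : ℝ) ^ 2))).integrable _)
      ((((rec_bN B T _ x (fun n => (n : ℝ))).mul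
      (rec_bN B T _ x (fun n => (n : ℝ)))).smul 2).integrable _),
    integral_add ((rec_bN B T _ x (fun n => (n : ℝ) ^ 2)).integrable _)
      ((rec_bN B T _ x (fun n => (n : ℝ) ^ 2)).integrable _), integral_const_mul,
    rec_ind B hp T x (fun n => (n : ℝ)) (fun n => (n : ℝ)),
    thin_two B hp T x false, thin_two B hp T x true, thin_one B hp T x false,
    thin_one B hp T x true, D_inv B hp T (B.inn x false) x (fun n => (n : ℝ)),
    D_inv B hp T (B.inn x true) x (fun n => (n : ℝ)),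
    D_inv B hp T (B.inn x false) x (fun n => (n : ℝ) ^ 2),
    D_inv B hp T (B.inn x true) x (fun n => (n : ℝ) ^ 2)]
  ring

omit [MeasurableSpace V] [MeasurableSingletonClass V] [Countable V] in
lemma rec_mono (T : ℕ) (x : V) (ω : Om0 V) : D B T x ω ≤ D B (T + 1) x ω := by
  unfold D
  rw [sum_range_succ _ (T + 1)]
  exact Nat.le_add_right _ _

lemma rec_mle {p : ℝ} (hp : 0 ≤ p ∧ p ≤ 1) (T : ℕ) (x : V) :
    ∫ ω, (D B T x ω : ℝ) ∂(S.law0 p) ≤ ∫ ω, (D B (T + 1) x ω : ℝ) ∂(S.law0 p) := by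
  have hprob := law0_prob S hp
  exact integral_mono ((rec_bD B T x (fun n => (n : ℝ))).integrable _)
    ((rec_bD B (T + 1) x (fun n => (n : ℝ))).integrable _)
    (fun ω => Nat.cast_le.2 (rec_mono B T x ω))

lemma rec_pt (u : ℝ) (h0 : 0 ≤ u) (h1 : u ≤ 1) (n : ℕ) :
    (1 - u) ^ n ≤ 1 - u * n + u ^ 2 * (n : ℝ) ^ 2 := by
  induction n with
  | zero => simp
  | succ n ih =>
    have hn : (0 : ℝ) ≤ n := Nat.cast_nonneg n
    have h2 := mul_le_mul_of_nonneg_right ih (by linarith : 0 ≤ 1 - u)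
    rw [← pow_succ] at h2
    refine h2.trans ?_
    push_cast
    have h3 : 0 ≤ u ^ 3 * (n : ℝ) ^ 2 := by positivity
    have h4 : 0 ≤ u ^ 2 * (n : ℝ) := by positivity
    have h5 : 0 ≤ u ^ 2 := by positivity
    nlinarith

theorem rec_all {p : ℝ} (hp : 0 ≤ p) (hp2 : p < 1 / 2) (x : V) :
    (∀ T s, 0 < s → s ≤ 1 → ∫ ω, s ^ (D B (T + 1) x ω) ∂(S.law0 p) ≤
      (p * s + (1 - p) / s) * (∫ ω, ((1 + s) / 2) ^ (D B T x ω) ∂(S.law0 p)) ^ 2) ∧
    (∀ T, (1 - 2 * p) / (1 - p) ≤ (∫ ω, ((1 : ℝ) / 2) ^ (D B T x ω) ∂(S.law0 p)) ^ 2) ∧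
    (∀ T (u : ℝ), 0 ≤ u → u ≤ 1 → ∫ ω, (1 - u) ^ (D B T x ω) ∂(S.law0 p) ≤
      1 - u * (∫ ω, (D B T x ω : ℝ) ∂(S.law0 p)) +
        u ^ 2 * ∫ ω, (D B T x ω : ℝ) ^ 2 ∂(S.law0 p)) ∧
    (∀ T, ∫ ω, (D B T x ω : ℝ) ^ 2 ∂(S.law0 p) ≤ (∫ ω, (D B T x ω : ℝ) ∂(S.law0 p)) ^ 2 +
      3 * (∫ ω, (D B T x ω : ℝ) ∂(S.law0 p)) + 1) := by
  have hp' : 0 ≤ p ∧ p ≤ 1 := ⟨hp, by linarith⟩
  have hq : 0 < 1 - p := by linarith
  have hprob := law0_prob S hp'
  refine ⟨fun T s hs0 hs1 => ?_, fun T => ?_, fun T u hu0 hu1 => ?_, fun T => ?_⟩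
  · rw [rec_step B hp' T x (fun n => s ^ n), ← rec_pow B hp' T x hs0.le hs1]
    have h1 : ∫ ω, s ^ (R B T x ω + 1) ∂(S.law0 p) = s * ∫ ω, s ^ (R B T x ω) ∂(S.law0 p) := by
      rw [← integral_const_mul]
      refine integral_congr_ae (ae_of_all _ fun ω => ?_)
      show s ^ (R B T x ω + 1) = s * s ^ (R B T x ω)
      rw [pow_succ]
      ring
    have h2 : ∫ ω, s ^ (R B T x ω - 1) ∂(S.law0 p) ≤
        (1 / s) * ∫ ω, s ^ (R B T x ω) ∂(S.law0 p) := by
      rw [← integral_const_mul]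
      refine integral_mono ((rec_bR B T x (fun n => s ^ (n - 1))).integrable _)
        (((rec_bR B T x (fun n => s ^ n)).smul (1 / s)).integrable _) (fun ω => ?_)
      show s ^ (R B T x ω - 1) ≤ 1 / s * s ^ (R B T x ω)
      cases hR : R B T x ω with
      | zero =>
        simp only [Nat.zero_sub, pow_zero, mul_one]
        rw [le_div_iff₀ hs0]
        linarith
      | succ n =>
        rw [Nat.add_sub_cancel, pow_succ]
        apply le_of_eq
        field_simp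
    rw [h1]
    have h3 := mul_le_mul_of_nonneg_left h2 hq.le
    have e1 : (p * s + (1 - p) / s) * ∫ ω, s ^ (R B T x ω) ∂(S.law0 p) =
        p * (s * ∫ ω, s ^ (R B T x ω) ∂(S.law0 p)) +
          (1 - p) * (1 / s * ∫ ω, s ^ (R B T x ω) ∂(S.law0 p)) := by ring
    rw [e1]
    linarith
  · have h0 := rec_pow B hp' T x (le_refl (0 : ℝ)) zero_le_one
    rw [add_zero] at h0
    rw [← h0]
    have h1 := rec_step B hp' T x (fun n => (n : ℝ))
    have h2 := rec_mle B hp' T x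
    have h3 := rec_mean B hp' T x
    have e1 : ∫ ω, ((R B T x ω + 1 : ℕ) : ℝ) ∂(S.law0 p) =
        (∫ ω, (R B T x ω : ℝ) ∂(S.law0 p)) + 1 := by
      have : ∀ ω, ((R B T x ω + 1 : ℕ) : ℝ) = (R B T x ω : ℝ) + 1 := fun ω => by push_cast; ring
      simp_rw [this]
      rw [integral_add ((rec_bR B T x (fun n => (n : ℝ))).integrable _) (integrable_const _)]
      simp
    have e2 : ∫ ω, ((R B T x ω - 1 : ℕ) : ℝ) ∂(S.law0 p) =
        (∫ ω, (R B T x ω : ℝ) ∂(S.law0 p)) - 1 + ∫ ω, (0 : ℝ) ^ (R B T x ω) ∂(S.law0 p) := by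
      have : ∀ ω, ((R B T x ω - 1 : ℕ) : ℝ) = (R B T x ω : ℝ) - 1 + (0 : ℝ) ^ (R B T x ω) := by
        intro ω
        cases R B T x ω with
        | zero => simp
        | succ n => simp
      simp_rw [this]
      rw [integral_add (((rec_bR B T x (fun n => (n : ℝ))).sub (BM.const 1)).integrable _)
        ((rec_bR B T x (fun n => (0 : ℝ) ^ n)).integrable _),
        integral_sub ((rec_bR B T x (fun n => (n : ℝ))).integrable _) (integrable_const _)]
      simp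
    rw [e1, e2, h3] at h1
    rw [h1] at h2
    rw [div_le_iff₀ hq]
    linarith
  · have h1 : ∫ ω, (1 - u) ^ (D B T x ω) ∂(S.law0 p) ≤
        ∫ ω, (1 - u * (D B T x ω : ℝ) + u ^ 2 * (D B T x ω : ℝ) ^ 2) ∂(S.law0 p) :=
      integral_mono ((rec_bD B T x (fun n => (1 - u) ^ n)).integrable _)
        (((((BM.const 1).sub ((rec_bD B T x (fun n => (n : ℝ))).smul u)).add
          ((rec_bD B T x (fun n => (n : ℝ) ^ 2)).smul (u ^ 2)))).integrable _)
        (fun ω => rec_pt u hu0 hu1 _)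
    refine h1.trans (le_of_eq ?_)
    rw [integral_add (((BM.const 1).sub ((rec_bD B T x (fun n => (n : ℝ))).smul u)).integrable _)
      (((rec_bD B T x (fun n => (n : ℝ) ^ 2)).smul (u ^ 2)).integrable _),
      integral_sub (integrable_const _) (((rec_bD B T x (fun n => (n : ℝ))).smul u).integrable _),
      integral_const_mul, integral_const_mul]
    simp
  · have hm0 : ∀ T, 0 ≤ ∫ ω, (D B T x ω : ℝ) ∂(S.law0 p) := fun T =>
      integral_nonneg fun ω => Nat.cast_nonneg _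
    induction T with
    | zero =>
      have e1 : ∫ ω, (D B 0 x ω : ℝ) ^ 2 ∂(S.law0 p) = ∫ ω, (D B 0 x ω : ℝ) ∂(S.law0 p) := by
        refine integral_congr_ae (ae_of_all _ fun ω => ?_)
        show (D B 0 x ω : ℝ) ^ 2 = (D B 0 x ω : ℝ)
        rw [D_zero]
        cases ω.1 x <;> simp
      rw [e1]
      have := hm0 0
      nlinarith
    | succ T ih =>
      have h1 := rec_step B hp' T x (fun n => (n : ℝ) ^ 2)
      have h2 := rec_mle B hp' T x
      have h3 := rec_mean B hp' T x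
      have h4 := rec_mom B hp' T x
      have hm := hm0 T
      have e1 : ∫ ω, ((R B T x ω + 1 : ℕ) : ℝ) ^ 2 ∂(S.law0 p) =
          (∫ ω, (R B T x ω : ℝ) ^ 2 ∂(S.law0 p)) + 2 * (∫ ω, (R B T x ω : ℝ) ∂(S.law0 p)) + 1 := by
        have : ∀ ω, ((R B T x ω + 1 : ℕ) : ℝ) ^ 2 =
            (R B T x ω : ℝ) ^ 2 + 2 * (R B T x ω : ℝ) + 1 := fun ω => by push_cast; ring
        simp_rw [this]
        rw [integral_add (((rec_bR B T x (fun n => (n : ℝ) ^ 2)).add
          ((rec_bR B T x (fun n => (n : ℝ))).smul 2)).integrable _) (integrable_const _),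
          integral_add ((rec_bR B T x (fun n => (n : ℝ) ^ 2)).integrable _)
          (((rec_bR B T x (fun n => (n : ℝ))).smul 2).integrable _), integral_const_mul]
        simp
      have e2 : ∫ ω, ((R B T x ω - 1 : ℕ) : ℝ) ^ 2 ∂(S.law0 p) ≤
          ∫ ω, (R B T x ω : ℝ) ^ 2 ∂(S.law0 p) :=
        integral_mono ((rec_bR B T x (fun n => ((n - 1 : ℕ) : ℝ) ^ 2)).integrable _)
          ((rec_bR B T x (fun n => (n : ℝ) ^ 2)).integrable _)
          (fun ω => pow_le_pow_left₀ (Nat.cast_nonneg _) (Nat.cast_le.2 (Nat.sub_le _ _)) 2)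
      have e3 := mul_le_mul_of_nonneg_left e2 hq.le
      rw [e1, h3, h4] at h1
      rw [h4] at e3
      rw [h1]
      set m := ∫ ω, (D B T x ω : ℝ) ∂(S.law0 p)
      set M := ∫ ω, (D B (T + 1) x ω : ℝ) ∂(S.law0 p)
      set q := ∫ ω, (D B T x ω : ℝ) ^ 2 ∂(S.law0 p)
      have h5 : p * (1 / 2 * q + 1 / 2 * m + 1 / 2 * m ^ 2 + 2 * m + 1) +
          (1 - p) * (1 / 2 * q + 1 / 2 * m + 1 / 2 * m ^ 2) ≤ m ^ 2 + 3 * m + 1 := by
        have h6 : p * m ≤ 1 / 2 * m := mul_le_mul_of_nonneg_right hp2.le hm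
        nlinarith
      have h7 : m ^ 2 ≤ M ^ 2 := pow_le_pow_left₀ hm h2 2
      linarith

end B

end Pool.Agent.TH996.LL
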