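import Pool.Agent.TH996.LL.Thin
import Pool.Agent.TH996.LL.Indep
import Pool.Agent.TH996.LL.Link2

set_option autoImplicit false

namespace Pool.Agent.TH996.LL

open MeasureTheory Measure Finset Pool.Agent.TH996.Park

variable {V : Type*} [DecidableEq V] [MeasurableSpace V] [MeasurableSingletonClass V] [Countable V]

section B

variable {S : Tri V} (B : Bin S)

private theorem bm_phi {X : Om0 V → ℕ} (hX : Measurable X) {b : ℕ} (hb : ∀ ω, X ω ≤ b)
    (φ : ℕ → ℝ) : BM (fun ω => φ (X ω)) := by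
  refine ⟨(measurable_of_countable φ).comp hX, ∑ n ∈ range (b + 1), |φ n|, fun ω => ?_⟩
  exact Finset.single_le_sum (f := fun n => |φ n|) (fun _ _ => abs_nonneg _)
    (mem_range.2 (Nat.lt_succ_of_le (hb ω)))

private theorem meas_D (T : ℕ) (x : V) : Measurable (D B T x) := by
  unfold D
  exact Finset.measurable_sum _ fun t _ => meas_Cs B t x

private theorem bmD (T : ℕ) (x : V) (φ : ℕ → ℝ) : BM (fun ω => φ (D B T x ω)) := by
  obtain ⟨b, hb⟩ := D_le B T
  exact bm_phi (meas_D B T x) (fun ω => hb x ω) φ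

private theorem bmN (T : ℕ) (y x : V) (φ : ℕ → ℝ) : BM (fun ω => φ (N B T y x ω)) := by
  obtain ⟨b, hb⟩ := D_le B T
  exact bm_phi (meas_N B T y x) (fun ω => (N_le B T y x ω).trans (hb y ω)) φ

private theorem bmR (T : ℕ) (x : V) (φ : ℕ → ℝ) : BM (fun ω => φ (R B T x ω)) := by
  obtain ⟨b, hb⟩ := D_le B T
  refine bm_phi (b := b + b) ?_ (fun ω => ?_) φ
  · unfold R
    exact (meas_N B T _ x).add (meas_N B T _ x)
  · unfold R
    exact Nat.add_le_add ((N_le B T _ x ω).trans (hb _ ω)) ((N_le B T _ x ω).trans (hb _ ω))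

/-- the two in-neighbours are independent -/
private theorem ind2 {p : ℝ} (hp : 0 ≤ p ∧ p ≤ 1) (T : ℕ) (x : V) (φ ψ : ℕ → ℝ) :
    ∫ ω, φ (N B T (B.inn x false) x ω) * ψ (N B T (B.inn x true) x ω) ∂(S.law0 p) =
      (∫ ω, φ (N B T (B.inn x false) x ω) ∂(S.law0 p)) *
        ∫ ω, ψ (N B T (B.inn x true) x ω) ∂(S.law0 p) := by
  refine indep S hp (B.disj x) (B.disj x) (bmN B T _ x φ) (bmN B T _ x ψ) ?_ ?_
  · intro ω ω' h1 h2
    exact congrArg φ (N_dep B T _ x ω ω' h1 h2)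
  · intro ω ω' h1 h2
    exact congrArg ψ (N_dep B T _ x ω ω' h1 h2)

private theorem powR {p : ℝ} (hp : 0 ≤ p ∧ p ≤ 1) (T : ℕ) (x : V) {s : ℝ} (h0 : 0 ≤ s)
    (h1 : s ≤ 1) : ∫ ω, s ^ (R B T x ω) ∂(S.law0 p) =
      (∫ ω, ((1 + s) / 2) ^ (D B T x ω) ∂(S.law0 p)) ^ 2 := by
  have h := ind2 B hp T x (fun n => s ^ n) (fun n => s ^ n)
  have e : ∀ ω, s ^ (R B T x ω) =
      s ^ (N B T (B.inn x false) x ω) * s ^ (N B T (B.inn x true) x ω) := by
    intro ω
    unfold R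
    rw [pow_add]
  simp_rw [e]
  rw [h, thin_pow B hp T x false h0 h1, thin_pow B hp T x true h0 h1,
    D_inv B hp T (B.inn x false) x (fun n => ((1 + s) / 2) ^ n),
    D_inv B hp T (B.inn x true) x (fun n => ((1 + s) / 2) ^ n)]
  ring

private theorem oneR {p : ℝ} (hp : 0 ≤ p ∧ p ≤ 1) (T : ℕ) (x : V) :
    ∫ ω, (R B T x ω : ℝ) ∂(S.law0 p) = ∫ ω, (D B T x ω : ℝ) ∂(S.law0 p) := by
  have := law0_prob S hp
  have e : ∀ ω, (R B T x ω : ℝ) =
      (N B T (B.inn x false) x ω : ℝ) + (N B T (B.inn x true) x ω : ℝ) := by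
    intro ω
    unfold R
    push_cast
    rfl
  simp_rw [e]
  rw [integral_add ((bmN B T _ x (fun n => (n : ℝ))).integrable _)
    ((bmN B T _ x (fun n => (n : ℝ))).integrable _), thin_one B hp T x false,
    thin_one B hp T x true, D_inv B hp T (B.inn x false) x (fun n => (n : ℝ)),
    D_inv B hp T (B.inn x true) x (fun n => (n : ℝ))]
  ring

private theorem twoR {p : ℝ} (hp : 0 ≤ p ∧ p ≤ 1) (T : ℕ) (x : V) :
    ∫ ω, (R B T x ω : ℝ) ^ 2 ∂(S.law0 p) =
      1 / 2 * (∫ ω, (D B T x ω : ℝ) ^ 2 ∂(S.law0 p)) +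
      1 / 2 * (∫ ω, (D B T x ω : ℝ) ∂(S.law0 p)) +
      1 / 2 * (∫ ω, (D B T x ω : ℝ) ∂(S.law0 p)) ^ 2 := by
  have := law0_prob S hp
  have h := ind2 B hp T x (fun n => (n : ℝ)) (fun n => (n : ℝ))
  have e : ∀ ω, (R B T x ω : ℝ) ^ 2 =
      ((N B T (B.inn x false) x ω : ℝ) ^ 2 + (N B T (B.inn x true) x ω : ℝ) ^ 2) +
        2 * ((N B T (B.inn x false) x ω : ℝ) * (N B T (B.inn x true) x ω : ℝ)) := by
    intro ω
    unfold R
    push_cast
    ring
  simp_rw [e]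
  have i1 := (bmN B T (B.inn x false) x (fun n => (n : ℝ) ^ 2))
  have i2 := (bmN B T (B.inn x true) x (fun n => (n : ℝ) ^ 2))
  have i3 := ((bmN B T (B.inn x false) x (fun n => (n : ℝ))).mul
    (bmN B T (B.inn x true) x (fun n => (n : ℝ)))).smul 2
  rw [integral_add ((i1.add i2).integrable _) (i3.integrable _),
    integral_add (i1.integrable _) (i2.integrable _), integral_const_mul, h,
    thin_one B hp T x false, thin_one B hp T x true, thin_two B hp T x false,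
    thin_two B hp T x true, D_inv B hp T (B.inn x false) x (fun n => (n : ℝ)),
    D_inv B hp T (B.inn x true) x (fun n => (n : ℝ)),
    D_inv B hp T (B.inn x false) x (fun n => (n : ℝ) ^ 2),
    D_inv B hp T (B.inn x true) x (fun n => (n : ℝ) ^ 2)]
  ring

/-- the initial state of `x` is independent of the arrivals at `x` -/
private theorem eta {p : ℝ} (hp : 0 ≤ p ∧ p ≤ 1) (T : ℕ) (x : V) (φ : ℕ → ℝ) (g : Bool → ℝ) :
    ∫ ω, φ (R B T x ω) * g (ω.1 x) ∂(S.law0 p) =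
      (∫ ω, φ (R B T x ω) ∂(S.law0 p)) * (p * g true + (1 - p) * g false) := by
  have := bern_prob hp.1 hp.2
  have hr := (Resamp.pi (fun _ : V => bern p) x).left
    (infinitePi fun a : ℕ × V × ℕ => stepLaw S.nb S.K a.2.1)
  have hg : BM (fun ω : Om0 V => g (ω.1 x)) := by
    refine ⟨(measurable_of_countable g).comp ((measurable_pi_apply x).comp measurable_fst),
      |g true| + |g false|, fun ω => ?_⟩
    cases ω.1 x
    · exact le_add_of_nonneg_left (abs_nonneg _)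
    · exact le_add_of_nonneg_right (abs_nonneg _)
  have h := hr.integral_mul (bmR B T x φ) hg g (fun ω v => ?_) (fun ω v => by simp)
  · unfold Tri.law0
    rw [h, integral_bern hp.1 hp.2]
  · refine congrArg φ (R_dep B T x _ _ (fun z hz => ?_) (fun _ _ _ _ => rfl))
    have hne : z ≠ x := fun e => hz.2 e
    simp [Function.update_of_ne hne]

private theorem Dphi {p : ℝ} (hp : 0 ≤ p ∧ p ≤ 1) (T : ℕ) (x : V) (φ : ℕ → ℝ) :
    ∫ ω, φ (D B (T + 1) x ω) ∂(S.law0 p) =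
      p * (∫ ω, φ (R B T x ω + 1) ∂(S.law0 p)) +
      (1 - p) * (∫ ω, φ (R B T x ω - 1) ∂(S.law0 p)) := by
  have := law0_prob S hp
  have hg : ∀ g : Bool → ℝ, BM (fun ω : Om0 V => g (ω.1 x)) := by
    intro g
    refine ⟨(measurable_of_countable g).comp ((measurable_pi_apply x).comp measurable_fst),
      |g true| + |g false|, fun ω => ?_⟩
    cases ω.1 x
    · exact le_add_of_nonneg_left (abs_nonneg _)
    · exact le_add_of_nonneg_right (abs_nonneg _)
  have e : ∀ ω, φ (D B (T + 1) x ω) =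
      φ (R B T x ω + 1) * (fun c : Bool => if c then (1 : ℝ) else 0) (ω.1 x) +
      φ (R B T x ω - 1) * (fun c : Bool => if c then (0 : ℝ) else 1) (ω.1 x) := by
    intro ω
    rw [D_succ]
    cases ω.1 x <;> simp
  simp_rw [e]
  rw [integral_add (((bmR B T x (fun n => φ (n + 1))).mul
      (hg (fun c : Bool => if c then (1 : ℝ) else 0))).integrable _)
    (((bmR B T x (fun n => φ (n - 1))).mul
      (hg (fun c : Bool => if c then (0 : ℝ) else 1))).integrable _)]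
  have h1 := eta B hp T x (fun n => φ (n + 1)) (fun c : Bool => if c then (1 : ℝ) else 0)
  have h2 := eta B hp T x (fun n => φ (n - 1)) (fun c : Bool => if c then (0 : ℝ) else 1)
  simp only at h1 h2
  rw [h1, h2]
  simp
  ring

private theorem D_mono (T : ℕ) (x : V) (ω : Om0 V) : D B T x ω ≤ D B (T + 1) x ω := by
  unfold D
  exact Finset.sum_le_sum_of_subset (range_mono (by omega))

private theorem mean_mono {p : ℝ} (hp : 0 ≤ p ∧ p ≤ 1) (T : ℕ) (x : V) :
    ∫ ω, (D B T x ω : ℝ) ∂(S.law0 p) ≤ ∫ ω, (D B (T + 1) x ω : ℝ) ∂(S.law0 p) := by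
  have := law0_prob S hp
  exact integral_mono ((bmD B T x (fun n => (n : ℝ))).integrable _)
    ((bmD B (T + 1) x (fun n => (n : ℝ))).integrable _)
    (fun ω => Nat.cast_le.2 (D_mono B T x ω))

private theorem bern_ineq (u : ℝ) (h0 : 0 ≤ u) (h1 : u ≤ 1) (n : ℕ) :
    (1 - u) ^ n ≤ 1 - u * n + u ^ 2 * n ^ 2 := by
  induction n with
  | zero => simp
  | succ n ih =>
    rw [pow_succ]
    have h2 := mul_le_mul_of_nonneg_right ih (by linarith : (0 : ℝ) ≤ 1 - u)
    have h3 : 0 ≤ u ^ 3 * (n : ℝ) ^ 2 := by positivity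
    have h4 : 0 ≤ u ^ 2 * (n : ℝ) := by positivity
    push_cast
    nlinarith [sq_nonneg u]

theorem rec_all {p : ℝ} (hp : 0 ≤ p) (hp2 : p < 1 / 2) (x : V) :
    (∀ T s, 0 < s → s ≤ 1 → ∫ ω, s ^ (D B (T + 1) x ω) ∂(S.law0 p) ≤
      (p * s + (1 - p) / s) * (∫ ω, ((1 + s) / 2) ^ (D B T x ω) ∂(S.law0 p)) ^ 2) ∧
    (∀ T, (1 - 2 * p) / (1 - p) ≤ (∫ ω, ((1 : ℝ) / 2) ^ (D B T x ω) ∂(S.law0 p)) ^ 2) ∧
    (∀ T (u : ℝ), 0 ≤ u → u ≤ 1 → ∫ ω, (1 - u) ^ (D B T x ω) ∂(S.law0 p) ≤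
      1 - u * (∫ ω, (D B T x ω : ℝ) ∂(S.law0 p)) +
        u ^ 2 * ∫ ω, (D B T x ω : ℝ) ^ 2 ∂(S.law0 p)) ∧
    (∀ T, ∫ ω, (D B T x ω : ℝ) ^ 2 ∂(S.law0 p) ≤ (∫ ω, (D B T x ω : ℝ) ∂(S.law0 p)) ^ 2 +
      3 * (∫ ω, (D B T x ω : ℝ) ∂(S.law0 p)) + 1) := by
  have hp' : 0 ≤ p ∧ p ≤ 1 := ⟨hp, by linarith⟩
  have := law0_prob S hp'
  refine ⟨?_, ?_, ?_, ?_⟩
  · intro T s h0 h1
    rw [← powR B hp' T x h0.le h1, Dphi B hp' T x (fun n => s ^ n)]
    have e1 : ∫ ω, s ^ (R B T x ω + 1) ∂(S.law0 p) = s * ∫ ω, s ^ (R B T x ω) ∂(S.law0 p) := by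
      rw [← integral_const_mul]
      refine integral_congr_ae (ae_of_all _ fun ω => ?_)
      simp only
      rw [pow_succ, mul_comm]
    have e2 : ∫ ω, s ^ (R B T x ω - 1) ∂(S.law0 p) ≤
        1 / s * ∫ ω, s ^ (R B T x ω) ∂(S.law0 p) := by
      rw [← integral_const_mul]
      refine integral_mono ((bmR B T x (fun n => s ^ (n - 1))).integrable _)
        (((bmR B T x (fun n => s ^ n)).smul (1 / s)).integrable _) fun ω => ?_
      simp only
      rcases Nat.eq_zero_or_pos (R B T x ω) with h | h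
      · rw [h]
        simp only [Nat.zero_sub, pow_zero, mul_one]
        rw [le_div_iff₀ h0]
        linarith
      · obtain ⟨n, hn⟩ : ∃ n, R B T x ω = n + 1 := ⟨R B T x ω - 1, by omega⟩
        rw [hn, Nat.add_sub_cancel, pow_succ]
        apply le_of_eq
        field_simp
    rw [e1]
    have h2 := mul_le_mul_of_nonneg_left e2 (by linarith : (0 : ℝ) ≤ 1 - p)
    have e3 : (p * s + (1 - p) / s) * ∫ ω, s ^ (R B T x ω) ∂(S.law0 p) =
        p * (s * ∫ ω, s ^ (R B T x ω) ∂(S.law0 p)) +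
        (1 - p) * (1 / s * ∫ ω, s ^ (R B T x ω) ∂(S.law0 p)) := by ring
    rw [e3]
    linarith
  · intro T
    have h0 := powR B hp' T x (s := 0) le_rfl (by norm_num)
    rw [add_zero] at h0
    rw [← h0, div_le_iff₀ (by linarith)]
    have h1 := Dphi B hp' T x (fun n => (n : ℝ))
    have h2 := mean_mono B hp' T x
    have e1 : ∫ ω, ((R B T x ω + 1 : ℕ) : ℝ) ∂(S.law0 p) =
        ∫ ω, (R B T x ω : ℝ) ∂(S.law0 p) + 1 := by
      push_cast
      rw [integral_add ((bmR B T x (fun n => (n : ℝ))).integrable _) (integrable_const _)]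
      simp
    have e2 : ∫ ω, ((R B T x ω - 1 : ℕ) : ℝ) ∂(S.law0 p) =
        ∫ ω, (R B T x ω : ℝ) ∂(S.law0 p) - 1 + ∫ ω, (0 : ℝ) ^ (R B T x ω) ∂(S.law0 p) := by
      have e : ∀ ω, ((R B T x ω - 1 : ℕ) : ℝ) =
          ((R B T x ω : ℝ) - 1) + (0 : ℝ) ^ (R B T x ω) := by
        intro ω
        rcases Nat.eq_zero_or_pos (R B T x ω) with h | h
        · rw [h]; simp
        · rw [zero_pow (by omega), Nat.cast_sub h]
          simp
      simp_rw [e]
      rw [integral_add (((bmR B T x (fun n => (n : ℝ))).sub (BM.const 1)).integrable _)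
        ((bmR B T x (fun n => (0 : ℝ) ^ n)).integrable _),
        integral_sub ((bmR B T x (fun n => (n : ℝ))).integrable _) (integrable_const _)]
      simp
    have e3 := oneR B hp' T x
    rw [h1, e1, e2, e3] at h2
    nlinarith
  · intro T u h0 h1
    have h : ∫ ω, (1 - u) ^ (D B T x ω) ∂(S.law0 p) ≤
        ∫ ω, ((1 - u * (D B T x ω : ℝ)) + u ^ 2 * (D B T x ω : ℝ) ^ 2) ∂(S.law0 p) := by
      refine integral_mono ((bmD B T x (fun n => (1 - u) ^ n)).integrable _)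
        ((bmD B T x (fun n => (1 - u * (n : ℝ)) + u ^ 2 * (n : ℝ) ^ 2)).integrable _) fun ω => ?_
      exact bern_ineq u h0 h1 _
    refine h.trans (le_of_eq ?_)
    rw [integral_add ((bmD B T x (fun n => 1 - u * (n : ℝ))).integrable _)
      ((bmD B T x (fun n => u ^ 2 * (n : ℝ) ^ 2)).integrable _),
      integral_sub (integrable_const _) ((bmD B T x (fun n => u * (n : ℝ))).integrable _),
      integral_const_mul, integral_const_mul]
    simp
  · intro T
    induction T with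
    | zero =>
      have e : ∀ ω, (D B 0 x ω : ℝ) ^ 2 = (D B 0 x ω : ℝ) := by
        intro ω
        rw [D_zero]
        split_ifs <;> simp
      simp_rw [e]
      have h0 : 0 ≤ ∫ ω, (D B 0 x ω : ℝ) ∂(S.law0 p) := integral_nonneg fun ω => by positivity
      nlinarith
    | succ T ih =>
      have h1 := Dphi B hp' T x (fun n => (n : ℝ) ^ 2)
      have h2 := mean_mono B hp' T x
      have h0 : 0 ≤ ∫ ω, (D B T x ω : ℝ) ∂(S.law0 p) := integral_nonneg fun ω => by positivity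
      have e1 : ∫ ω, ((R B T x ω + 1 : ℕ) : ℝ) ^ 2 ∂(S.law0 p) =
          ∫ ω, (R B T x ω : ℝ) ^ 2 ∂(S.law0 p) + 2 * ∫ ω, (R B T x ω : ℝ) ∂(S.law0 p) + 1 := by
        have e : ∀ ω, ((R B T x ω + 1 : ℕ) : ℝ) ^ 2 =
            ((R B T x ω : ℝ) ^ 2 + 2 * (R B T x ω : ℝ)) + 1 := by
          intro ω
          push_cast
          ring
        simp_rw [e]
        rw [integral_add ((bmR B T x (fun n => (n : ℝ) ^ 2 + 2 * (n : ℝ))).integrable _)
          (integrable_const _),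
          integral_add ((bmR B T x (fun n => (n : ℝ) ^ 2)).integrable _)
          ((bmR B T x (fun n => 2 * (n : ℝ))).integrable _), integral_const_mul]
        simp
      have e2 : ∫ ω, ((R B T x ω - 1 : ℕ) : ℝ) ^ 2 ∂(S.law0 p) ≤
          ∫ ω, (R B T x ω : ℝ) ^ 2 ∂(S.law0 p) := by
        refine integral_mono ((bmR B T x (fun n => ((n - 1 : ℕ) : ℝ) ^ 2)).integrable _)
          ((bmR B T x (fun n => (n : ℝ) ^ 2)).integrable _) fun ω => ?_
        have : ((R B T x ω - 1 : ℕ) : ℝ) ≤ (R B T x ω : ℝ) := by exact_mod_cast Nat.sub_le _ _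
        exact pow_le_pow_left₀ (by positivity) this 2
      have e3 := oneR B hp' T x
      have e4 := twoR B hp' T x
      rw [h1, e1]
      rw [e3]
      have h3 := mul_le_mul_of_nonneg_left e2 (by linarith : (0 : ℝ) ≤ 1 - p)
      rw [e4] at h3 ⊢
      set m := ∫ ω, (D B T x ω : ℝ) ∂(S.law0 p) with hm
      set m' := ∫ ω, (D B (T + 1) x ω : ℝ) ∂(S.law0 p) with hm'
      set M := ∫ ω, (D B T x ω : ℝ) ^ 2 ∂(S.law0 p) with hM
      have h4 : m ^ 2 + 3 * m + 1 ≤ m' ^ 2 + 3 * m' + 1 := by nlinarith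
      have h5 : p * m ≤ 1 / 2 * m := mul_le_mul_of_nonneg_right hp2.le h0
      nlinarith

end B

end Pool.Agent.TH996.LL
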